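import Pool.Agent.H13.CxMan.Colimit

/-!
A chain of parametrised copies of `E` without an upper bound (Zorn).
-/

namespace Pool.Agent.H13.CxMan

open Metric Filter Topology Cardinal
open scoped ContDiff

section
variable (E : Type)

/-- the ambient set of labels -/
abbrev Zt := Set (E × ℕ)

/-- injective parametrisations -/
abbrev Par := {p : E → Zt E // Function.Injective p}

end

variable {E : Type} [NormedAddCommGroup E] [NormedSpace ℂ E] [ProperSpace E] [CompleteSpace E]

/-- weak relation -/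
def Rw (p q : Par E) : Prop := ∃ f : E → E, Fam f ∧ ∀ x, p.1 x = q.1 (f x)

/-- strict relation -/
def Rs (p q : Par E) : Prop := ∃ f : E → E, Fam f ∧ ¬ DenseRange f ∧ ∀ x, p.1 x = q.1 (f x)

lemma Rw.refl (p : Par E) : Rw p p := ⟨id, fam_id, fun _ => rfl⟩

lemma Rw.trans {p q s : Par E} (h1 : Rw p q) (h2 : Rw q s) : Rw p s := by
  obtain ⟨f, hf, hf2⟩ := h1
  obtain ⟨g, hg, hg2⟩ := h2
  exact ⟨fun x => g (f x), hg.comp hf, fun x => by rw [hf2, hg2]⟩

lemma Rw.trans_strict {p q s : Par E} (h1 : Rw p q) (h2 : Rs q s) : Rs p s := by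
  obtain ⟨f, hf, hf2⟩ := h1
  obtain ⟨g, hg, hgd, hg2⟩ := h2
  refine ⟨fun x => g (f x), hg.comp hf, ?_, fun x => by rw [hf2, hg2]⟩
  intro hd
  apply hgd
  exact hd.mono (by rintro _ ⟨x, rfl⟩; exact ⟨f x, rfl⟩)

lemma Rs.weak {p q : Par E} (h : Rs p q) : Rw p q := by
  obtain ⟨f, hf, _, h2⟩ := h
  exact ⟨f, hf, h2⟩

lemma Rs.trans {p q s : Par E} (h1 : Rs p q) (h2 : Rs q s) : Rs p s := h1.weak.trans_strict h2

/-- every parametrisation can be strictly extended -/
lemma exists_ext {f0 : E → E} (hf0 : Fam f0) (hd : ¬ DenseRange f0) (p : Par E) : ∃ q, Rs p q := by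
  have hcard : #E < #(Zt E) := by
    have h1 : #E ≤ #(E × ℕ) := Cardinal.mk_le_of_injective (f := fun x => (x, 0)) (fun x y h => by simpa using h)
    have h2 : #(E × ℕ) < #(Set (E × ℕ)) := by rw [Cardinal.mk_set]; exact Cardinal.cantor _
    exact lt_of_le_of_lt h1 h2
  have h3 : #(Set.range p.1) < #(Zt E) := lt_of_le_of_lt Cardinal.mk_range_le hcard
  have h4 : #((Set.range p.1)ᶜ : Set (Zt E)) = #(Zt E) := Cardinal.mk_compl_of_infinite _ h3
  have h5 : #E ≤ #((Set.range p.1)ᶜ : Set (Zt E)) := by rw [h4]; exact hcard.le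
  obtain ⟨j⟩ := Cardinal.le_def _ _ |>.mp h5
  classical
  let q : E → Zt E := fun y => if h : ∃ x, f0 x = y then p.1 h.choose else (j y : Zt E)
  have hq1 : ∀ x, q (f0 x) = p.1 x := by
    intro x
    have h : ∃ x', f0 x' = f0 x := ⟨x, rfl⟩
    simp only [q, dif_pos h]
    exact congrArg p.1 (hf0.inj h.choose_spec)
  have hq2 : ∀ y, (¬ ∃ x, f0 x = y) → q y = (j y : Zt E) := fun y h => by simp only [q, dif_neg h]
  refine ⟨⟨q, ?_⟩, f0, hf0, hd, fun x => (hq1 x).symm⟩
  intro y y' hyy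
  by_cases h : ∃ x, f0 x = y
  · obtain ⟨x, rfl⟩ := h
    by_cases h' : ∃ x, f0 x = y'
    · obtain ⟨x', rfl⟩ := h'
      rw [hq1, hq1] at hyy
      rw [p.2 hyy]
    · exfalso
      rw [hq1, hq2 _ h'] at hyy
      exact (j y').2 ⟨x, hyy⟩
  · by_cases h' : ∃ x, f0 x = y'
    · exfalso
      obtain ⟨x', rfl⟩ := h'
      rw [hq1, hq2 _ h] at hyy
      exact (j y).2 ⟨x', hyy.symm⟩
    · rw [hq2 _ h, hq2 _ h'] at hyy
      exact j.injective (Subtype.ext hyy)

/-- sequences have upper bounds -/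
lemma exists_ub_seq (p : ℕ → Par E) (hp : ∀ n, Rw (p n) (p (n + 1))) : ∃ q : Par E, ∀ n, Rw (p n) q := by
  choose f hf hf2 using hp
  obtain ⟨G, hG1, hG2, hG3⟩ := colimit hf
  have hpit : ∀ n k x, (p n).1 x = (p (n + k)).1 (it f n k x) := by
    intro n k x
    induction k with
    | zero => rfl
    | succ k ih => rw [ih, hf2]; rfl
  have hGit : ∀ n k x, G n x = G (n + k) (it f n k x) := by
    intro n k x
    induction k with
    | zero => rfl
    | succ k ih => rw [ih, hG2]; rfl
  choose N X hNX using hG3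
  let q : E → Zt E := fun y => (p (N y)).1 (X y)
  have hcompat : ∀ n m x x', n ≤ m → G n x = G m x' → (p n).1 x = (p m).1 x' := by
    intro n m x x' hnm h
    obtain ⟨k, rfl⟩ := Nat.exists_eq_add_of_le hnm
    rw [hGit n k x] at h
    rw [hpit n k x, (hG1 _).inj h]
  have hcompat' : ∀ n m x x', G n x = G m x' → (p n).1 x = (p m).1 x' := by
    intro n m x x' h
    rcases le_total n m with h1 | h1
    · exact hcompat n m x x' h1 h
    · exact (hcompat m n x' x h1 h.symm).symm
  have hback : ∀ n m x x', n ≤ m → (p n).1 x = (p m).1 x' → G n x = G m x' := by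
    intro n m x x' hnm h
    obtain ⟨k, rfl⟩ := Nat.exists_eq_add_of_le hnm
    rw [hpit n k x] at h
    rw [hGit n k x, (p _).2 h]
  have hback' : ∀ n m x x', (p n).1 x = (p m).1 x' → G n x = G m x' := by
    intro n m x x' h
    rcases le_total n m with h1 | h1
    · exact hback n m x x' h1 h
    · exact (hback m n x' x h1 h.symm).symm
  refine ⟨⟨q, ?_⟩, fun n => ⟨G n, hG1 n, fun x => ?_⟩⟩
  · intro y y' h
    have := hback' _ _ _ _ h
    rw [hNX, hNX] at this
    exact this
  · show (p n).1 x = (p (N (G n x))).1 (X (G n x))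
    exact hcompat' _ _ _ _ (hNX (G n x)).symm

/-- countable subfamilies of a chain have strict upper bounds -/
lemma exists_ub_countable {f0 : E → E} (hf0 : Fam f0) (hd : ¬ DenseRange f0) {c : Set (Par E)}
    (hc : IsChain Rs c) (d : ℕ → Par E) (hdc : ∀ n, d n ∈ c) : ∃ q : Par E, ∀ n, Rs (d n) q := by
  classical
  let e : ℕ → Par E := fun n => Nat.rec (d 0) (fun n e => if Rs e (d (n + 1)) then d (n + 1) else e) n
  have e0 : e 0 = d 0 := rfl
  have es : ∀ n, e (n + 1) = if Rs (e n) (d (n + 1)) then d (n + 1) else e n := fun n => rfl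
  have hec : ∀ n, e n ∈ c := by
    intro n
    induction n with
    | zero => rw [e0]; exact hdc 0
    | succ n ih => rw [es]; split_ifs; exacts [hdc _, ih]
  have h1 : ∀ n, Rw (e n) (e (n + 1)) := by
    intro n
    rw [es]
    split_ifs with h
    · exact h.weak
    · exact Rw.refl _
  have h2 : ∀ n, Rw (d n) (e n) := by
    intro n
    cases n with
    | zero => rw [e0]; exact Rw.refl _
    | succ n =>
      rw [es]
      split_ifs with h
      · exact Rw.refl _
      · rcases eq_or_ne (d (n + 1)) (e n) with heq | heq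
        · rw [heq]; exact Rw.refl _
        · rcases hc (hdc (n + 1)) (hec n) heq with h3 | h3
          · exact h3.weak
          · exact absurd h3 h
  obtain ⟨q, hq⟩ := exists_ub_seq e h1
  obtain ⟨q', hq'⟩ := exists_ext hf0 hd q
  exact ⟨q', fun n => ((h2 n).trans (hq n)).trans_strict hq'⟩

/-- Zorn: there is a chain without upper bound -/
lemma exists_chain {f0 : E → E} (hf0 : Fam f0) (hd : ¬ DenseRange f0) :
    ∃ c : Set (Par E), IsChain Rs c ∧ ¬ ∃ ub, ∀ a ∈ c, Rs a ub := by
  by_contra hcon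
  push Not at hcon
  obtain ⟨m, hm⟩ := exists_maximal_of_chains_bounded (r := Rs) (fun c hc => hcon c hc)
    (fun h1 h2 => Rs.trans h1 h2)
  obtain ⟨a, ha⟩ := exists_ext hf0 hd m
  obtain ⟨f, hf, hfd, hf2⟩ := ha.trans (hm a ha)
  apply hfd
  intro x
  apply subset_closure
  exact ⟨x, (m.2 (hf2 x)).symm⟩

/-- in such a chain every countable family has a strict upper bound inside the chain -/
lemma exists_ub_mem {f0 : E → E} (hf0 : Fam f0) (hd : ¬ DenseRange f0) {c : Set (Par E)}
    (hc : IsChain Rs c) (hub : ¬ ∃ ub, ∀ a ∈ c, Rs a ub) (d : ℕ → Par E) (hdc : ∀ n, d n ∈ c) :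
    ∃ q ∈ c, ∀ n, Rs (d n) q := by
  by_contra hcon
  push Not at hcon
  obtain ⟨u, hu⟩ := exists_ub_countable hf0 hd hc d hdc
  apply hub
  refine ⟨u, fun q hq => ?_⟩
  obtain ⟨n, hn⟩ := hcon q hq
  by_cases heq : d n = q
  · rw [← heq]; exact hu n
  · rcases hc (hdc n) hq heq with h3 | h3
    · exact absurd h3 hn
    · exact h3.trans (hu n)

end Pool.Agent.H13.CxMan
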