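import Pool.Agent.H13.CxMan.Family

/-!
The union of an increasing sequence of copies of `E`, glued by maps in `Fam`, is again `E`.
-/

namespace Pool.Agent.H13.CxMan

open Metric Filter Topology
open scoped ContDiff

variable {E : Type*} [NormedAddCommGroup E] [NormedSpace ℂ E] [ProperSpace E] [CompleteSpace E]

/-- `it f j k = f (j+k-1) ∘ ... ∘ f j` -/
def it (f : ℕ → E → E) (j : ℕ) : ℕ → E → E
  | 0 => id
  | k + 1 => fun x => f (j + k) (it f j k x)

omit [NormedSpace ℂ E] [ProperSpace E] [CompleteSpace E] in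
lemma it_succ' (f : ℕ → E → E) (j k : ℕ) (x : E) : it f j (k + 1) x = it f (j + 1) k (f j x) := by
  induction k with
  | zero => simp [it]
  | succ k ih =>
    show f (j + (k + 1)) (it f j (k + 1) x) = f (j + 1 + k) (it f (j + 1) k (f j x))
    rw [ih]
    congr 1
    omega

omit [NormedSpace ℂ E] [ProperSpace E] [CompleteSpace E] in
lemma it_add (f : ℕ → E → E) (j k l : ℕ) (x : E) : it f j (k + l) x = it f (j + k) l (it f j k x) := by
  induction l with
  | zero => simp [it]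
  | succ l ih =>
    show f (j + (k + l)) (it f j (k + l) x) = f (j + k + l) (it f (j + k) l (it f j k x))
    rw [ih, Nat.add_assoc]

lemma fam_id : Fam (id : E → E) := (Aut.id : Aut E).fam

lemma it_fam {f : ℕ → E → E} (hf : ∀ n, Fam (f n)) (j k : ℕ) : Fam (it f j k) := by
  induction k with
  | zero => exact fam_id
  | succ k ih => exact (hf (j + k)).comp ih

/-- the condition kept at stage `n` -/
def Good (f : ℕ → E → E) (n : ℕ) (s : Aut E × ℝ) : Prop :=
  (n : ℝ) + 5 ≤ s.2 ∧ ∀ j k, j + k = n → ∀ x, ‖x‖ ≤ (n : ℝ) → ‖s.1.toEquiv (it f j k x)‖ + 5 ≤ s.2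

lemma good_zero (f : ℕ → E → E) : Good f 0 (Aut.id, 5) := by
  refine ⟨by simp, ?_⟩
  intro j k hjk x hx
  have hk : k = 0 := by omega
  subst hk
  have : x = 0 := by simpa using hx
  subst this
  simp [it]

lemma exists_step {f : ℕ → E → E} (hf : ∀ n, Fam (f n)) (n : ℕ) (s : Aut E × ℝ) :
    ∃ s' : Aut E × ℝ, Good f (n + 1) s' ∧ s.2 + 1 ≤ s'.2 ∧
      ∀ x, ‖s.1.toEquiv x‖ ≤ s.2 → ‖s'.1.toEquiv (f n x) - s.1.toEquiv x‖ ≤ (1 / 2) ^ (n + 2) := by
  obtain ⟨g', hg'⟩ := (hf n).step s.1 s.2 ((1 / 2) ^ (n + 2)) (by positivity)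
  -- bounds for finitely many compact images
  have hb : ∀ j : ℕ, ∃ T : ℝ, ∀ k, j + k = n + 1 → ∀ x, ‖x‖ ≤ ((n + 1 : ℕ) : ℝ) →
      ‖g'.toEquiv (it f j k x)‖ ≤ T := by
    intro j
    have hc : Continuous fun x => g'.toEquiv (it f j (n + 1 - j) x) :=
      g'.smooth.continuous.comp (it_fam hf j _).continuous
    obtain ⟨T, hT⟩ := (isCompact_closedBall (0 : E) ((n + 1 : ℕ) : ℝ)).exists_bound_of_continuousOn
      hc.continuousOn
    refine ⟨T, fun k hk x hx => ?_⟩
    have : k = n + 1 - j := by omega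
    subst this
    exact hT x (by simpa using hx)
  choose T hT using hb
  have hsum : ∃ T' : ℝ, ∀ j ≤ n + 1, T j ≤ T' := by
    obtain ⟨T', hT'⟩ := ((Finset.range (n + 2)).image T).exists_le
    exact ⟨T', fun j hj => hT' _ (Finset.mem_image_of_mem T (Finset.mem_range.mpr (by omega)))⟩
  obtain ⟨T', hT'⟩ := hsum
  refine ⟨(g', max (max (s.2 + 1) (T' + 5)) (((n + 1 : ℕ) : ℝ) + 5)), ⟨le_max_right _ _, ?_⟩,
    (le_max_left _ _).trans (le_max_left _ _), hg'⟩
  intro j k hjk x hx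
  have h1 := hT j k hjk x hx
  have h2 := hT' j (by omega)
  calc ‖g'.toEquiv (it f j k x)‖ + 5 ≤ T' + 5 := by linarith
    _ ≤ _ := (le_max_right _ _).trans (le_max_left _ _)

theorem colimit {f : ℕ → E → E} (hf : ∀ n, Fam (f n)) :
    ∃ G : ℕ → E → E, (∀ n, Fam (G n)) ∧ (∀ n x, G n x = G (n + 1) (f n x)) ∧
      (∀ y, ∃ n x, G n x = y) := by
  -- the sequence of states
  choose st hst1 hst2 hst3 using fun n s => exists_step hf n s
  let s : ℕ → Aut E × ℝ := fun n => Nat.rec (Aut.id, 5) (fun n s => st n s) n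
  have s0 : s 0 = (Aut.id, 5) := rfl
  have ss : ∀ n, s (n + 1) = st n (s n) := fun n => rfl
  have hgood : ∀ n, Good f n (s n) := by
    intro n
    cases n with
    | zero => exact good_zero f
    | succ n => exact hst1 n (s n)
  have hR1 : ∀ n, (s n).2 + 1 ≤ (s (n + 1)).2 := fun n => hst2 n (s n)
  have hRm : ∀ n k, (s n).2 ≤ (s (n + k)).2 := by
    intro n k
    induction k with
    | zero => exact le_rfl
    | succ k ih => have := hR1 (n + k); rw [Nat.add_succ]; linarith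
  have hclose : ∀ n x, ‖(s n).1.toEquiv x‖ ≤ (s n).2 →
      ‖(s (n + 1)).1.toEquiv (f n x) - (s n).1.toEquiv x‖ ≤ (1 / 2) ^ (n + 2) :=
    fun n => hst3 n (s n)
  set u : ℕ → ℕ → E → E := fun j k x => (s (j + k)).1.toEquiv (it f j k x) with hu
  have hu0 : ∀ m x, u m 0 x = (s m).1.toEquiv x := fun m x => rfl
  have hushift : ∀ j k l x, u j (k + l) x = u (j + k) l (it f j k x) := by
    intro j k l x
    simp only [hu]
    rw [it_add, Nat.add_assoc]
  -- Lemma A
  have hA1 : ∀ m x, ‖(s m).1.toEquiv x‖ ≤ (s m).2 - 1 → ∀ k,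
      ‖u m k x - u m 0 x‖ ≤ (1 / 2) ^ (m + 1) * (1 - (1 / 2) ^ k) ∧
      dist (u m k x) (u m (k + 1) x) ≤ (1 / 2) ^ (m + 1) / 2 / 2 ^ k := by
    intro m x hx k
    have hstep : ∀ k, ‖u m k x - u m 0 x‖ ≤ (1 / 2) ^ (m + 1) * (1 - (1 / 2) ^ k) →
        dist (u m k x) (u m (k + 1) x) ≤ (1 / 2) ^ (m + 1) / 2 / 2 ^ k := by
      intro k hk
      have h1 : ‖u m k x‖ ≤ (s (m + k)).2 := by
        have h2 : ‖u m k x‖ ≤ ‖u m k x - u m 0 x‖ + ‖u m 0 x‖ := by
          calc ‖u m k x‖ = ‖(u m k x - u m 0 x) + u m 0 x‖ := by simp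
            _ ≤ _ := norm_add_le _ _
        have h3 : (1 / 2 : ℝ) ^ (m + 1) * (1 - (1 / 2) ^ k) ≤ 1 := by
          have h4 : (1 / 2 : ℝ) ^ (m + 1) ≤ 1 := pow_le_one₀ (by norm_num) (by norm_num)
          have h5 : (0 : ℝ) ≤ (1 / 2) ^ k := by positivity
          have h6 : (0 : ℝ) ≤ (1 / 2) ^ (m + 1) := by positivity
          have h7 : (1 / 2 : ℝ) ^ k ≤ 1 := pow_le_one₀ (by norm_num) (by norm_num)
          nlinarith
        have h4 := hRm m k
        rw [hu0] at h2
        rw [hu0] at hk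
        linarith
      have h2 := hclose (m + k) (it f m k x) h1
      rw [dist_comm, dist_eq_norm]
      have e : u m (k + 1) x = (s (m + k + 1)).1.toEquiv (f (m + k) (it f m k x)) := rfl
      rw [e]
      refine h2.trans (le_of_eq ?_)
      rw [pow_add (1 / 2 : ℝ) (m + k) 2, pow_add (1 / 2 : ℝ) m k, pow_add (1 / 2 : ℝ) m 1]
      rw [one_div_pow (2 : ℝ) k]
      field_simp
    have hmain : ∀ k, ‖u m k x - u m 0 x‖ ≤ (1 / 2) ^ (m + 1) * (1 - (1 / 2) ^ k) := by
      intro k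
      induction k with
      | zero => simp
      | succ k ih =>
        have h1 := hstep k ih
        rw [dist_comm, dist_eq_norm] at h1
        calc ‖u m (k + 1) x - u m 0 x‖ = ‖(u m (k + 1) x - u m k x) + (u m k x - u m 0 x)‖ := by
              rw [sub_add_sub_cancel]
          _ ≤ ‖u m (k + 1) x - u m k x‖ + ‖u m k x - u m 0 x‖ := norm_add_le _ _
          _ ≤ (1 / 2) ^ (m + 1) / 2 / 2 ^ k + (1 / 2) ^ (m + 1) * (1 - (1 / 2) ^ k) := add_le_add h1 ih
          _ = _ := by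
              rw [pow_succ (1 / 2 : ℝ) k, one_div_pow (2 : ℝ) k]
              field_simp
              ring
    exact ⟨hmain k, hstep k (hmain k)⟩
  have hA2 : ∀ m x, ‖(s m).1.toEquiv x‖ ≤ (s m).2 - 1 →
      ∃ y, Tendsto (fun k => u m k x) atTop (𝓝 y) := by
    intro m x hx
    exact cauchySeq_tendsto_of_complete
      (cauchySeq_of_le_geometric_two (C := (1 / 2) ^ (m + 1)) fun k => (hA1 m x hx k).2)
  have hA3 : ∀ m x y, ‖(s m).1.toEquiv x‖ ≤ (s m).2 - 1 → Tendsto (fun k => u m k x) atTop (𝓝 y) →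
      ‖(s m).1.toEquiv x - y‖ ≤ (1 / 2) ^ (m + 1) := by
    intro m x y hx hy
    have := dist_le_of_le_geometric_two_of_tendsto₀ (C := (1 / 2) ^ (m + 1)) (fun k => (hA1 m x hx k).2) hy
    rw [dist_eq_norm] at this
    exact this
  -- every point is eventually caught
  have hcatch : ∀ j K x, ‖x‖ ≤ ((j + K : ℕ) : ℝ) → ‖(s (j + K)).1.toEquiv (it f j K x)‖ ≤ (s (j + K)).2 - 5 := by
    intro j K x hx
    have := (hgood (j + K)).2 j K rfl x hx
    linarith
  have hexK : ∀ x : E, ∃ K : ℕ, ‖x‖ ≤ (K : ℝ) := fun x => exists_nat_ge _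
  have hlim : ∀ j x, ∃ y, Tendsto (fun k => u j k x) atTop (𝓝 y) := by
    intro j x
    obtain ⟨K, hK⟩ := hexK x
    have h1 := hcatch j K x (hK.trans (by exact_mod_cast Nat.le_add_left K j))
    obtain ⟨y, hy⟩ := hA2 (j + K) (it f j K x) (by linarith)
    refine ⟨y, ?_⟩
    rw [← tendsto_add_atTop_iff_nat K]
    have : (fun k => u j (k + K) x) = fun k => u (j + K) k (it f j K x) := by
      funext k; rw [Nat.add_comm k K, hushift]
    rw [this]; exact hy
  choose G hG using hlim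
  have hrel : ∀ n x, G n x = G (n + 1) (f n x) := by
    intro n x
    have h1 := hG n x
    rw [← tendsto_add_atTop_iff_nat 1] at h1
    have h2 := hG (n + 1) (f n x)
    refine tendsto_nhds_unique h1 ?_
    have : (fun k => u n (k + 1) x) = fun k => u (n + 1) k (f n x) := by
      funext k
      rw [Nat.add_comm k 1, hushift]; rfl
    rw [this]; exact h2
  have hrel' : ∀ j K x, G j x = G (j + K) (it f j K x) := by
    intro j K x
    induction K with
    | zero => rfl
    | succ K ih => rw [ih, hrel]; rfl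
  -- closeness of G
  have hGclose : ∀ m x, ‖(s m).1.toEquiv x‖ ≤ (s m).2 - 1 → ‖(s m).1.toEquiv x - G m x‖ ≤ (1 / 2) ^ (m + 1) :=
    fun m x hx => hA3 m x _ hx (hG m x)
  have hucont : ∀ j k, ContDiff ℂ ω (u j k) := fun j k =>
    (s (j + k)).1.smooth.comp (it_fam hf j k).contDiff
  have hufam : ∀ j k, Fam (u j k) := fun j k => ((s (j + k)).1.fam).comp (it_fam hf j k)
  have hunif : ∀ (j : ℕ) (R : ℝ) (ε : ℝ), 0 < ε → ∃ K : ℕ, ∀ k ≥ K, ∀ x, ‖x‖ ≤ R → ‖u j k x - G j x‖ ≤ ε := by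
    intro j R ε hε
    obtain ⟨K1, hK1⟩ := exists_nat_ge R
    obtain ⟨K2, hK2⟩ := exists_pow_lt_of_lt_one hε (by norm_num : (1 / 2 : ℝ) < 1)
    refine ⟨max K1 K2, fun k hk x hx => ?_⟩
    have h1 : ‖x‖ ≤ ((j + k : ℕ) : ℝ) := by
      have : (K1 : ℝ) ≤ ((j + k : ℕ) : ℝ) := by exact_mod_cast ((le_max_left _ _).trans hk).trans (Nat.le_add_left k j)
      linarith
    have h2 := hcatch j k x h1
    have h3 := hGclose (j + k) (it f j k x) (by linarith)
    rw [← hrel' j k x] at h3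
    refine h3.trans ?_
    have h4 : (1 / 2 : ℝ) ^ (j + k + 1) ≤ (1 / 2) ^ K2 := by
      apply pow_le_pow_of_le_one (by norm_num) (by norm_num)
      have := (le_max_right K1 K2).trans hk
      omega
    linarith
  have hUC : ∀ j, UC (u j) (G j) := by
    intro j R
    rw [Metric.tendstoUniformlyOn_iff]
    intro ε hε
    obtain ⟨K, hK⟩ := hunif j R (ε / 2) (half_pos hε)
    filter_upwards [eventually_ge_atTop K] with k hk x hx
    have := hK k hk x (by simpa using hx)
    rw [dist_comm, dist_eq_norm]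
    linarith
  have hGsm : ∀ j, ContDiff ℂ ω (G j) := fun j => (hUC j).analytic (hucont j)
  have hGd : ∀ j, Differentiable ℂ (G j) := fun j => (hGsm j).differentiable (by simp)
  -- the maps Psi
  set Ψ : ℕ → E → E := fun m w => G m ((s m).1.toEquiv.symm w) with hΨ
  have hΨd : ∀ m, Differentiable ℂ (Ψ m) := fun m =>
    (hGd m).comp ((s m).1.smooth_symm.differentiable (by simp))
  have hΨG : ∀ m x, G m x = Ψ m ((s m).1.toEquiv x) := fun m x => by simp [hΨ]
  have hΨnear : ∀ m, Near (Ψ m) (1 / 2) (((s m).2 - 2) + 1) := by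
    intro m w hw
    have h1 := hGclose m ((s m).1.toEquiv.symm w) (by rw [Equiv.apply_symm_apply]; linarith)
    rw [Equiv.apply_symm_apply, norm_sub_rev] at h1
    refine h1.trans ?_
    rw [pow_succ]
    have : (1 / 2 : ℝ) ^ m ≤ 1 := pow_le_one₀ (by norm_num) (by norm_num)
    linarith
  refine ⟨G, fun j => ⟨?_, ?_, ?_⟩, hrel, ?_⟩
  · -- injective
    intro x y hxy
    obtain ⟨K1, hK1⟩ := hexK x
    obtain ⟨K2, hK2⟩ := hexK y
    set K := max K1 K2
    have hx : ‖x‖ ≤ ((j + K : ℕ) : ℝ) := hK1.trans (by exact_mod_cast (le_max_left K1 K2).trans (Nat.le_add_left _ j))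
    have hy : ‖y‖ ≤ ((j + K : ℕ) : ℝ) := hK2.trans (by exact_mod_cast (le_max_right K1 K2).trans (Nat.le_add_left _ j))
    have h1 := hcatch j K x hx
    have h2 := hcatch j K y hy
    rw [hrel' j K x, hrel' j K y, hΨG, hΨG] at hxy
    have h3 := (hΨnear (j + K)).inj (hΨd _) (by norm_num) (by linarith) (by linarith) hxy
    exact (it_fam hf j K).inj ((s (j + K)).1.toEquiv.injective h3)
  · -- derivative
    intro x
    obtain ⟨K, hK⟩ := hexK x
    have hx : ‖x‖ ≤ ((j + K : ℕ) : ℝ) := hK.trans (by exact_mod_cast Nat.le_add_left _ j)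
    have h1 := hcatch j K x hx
    have h2 : IsUnit (fderiv ℂ (Ψ (j + K)) (u j K x)) :=
      (hΨnear (j + K)).isUnit_fderiv (hΨd _) (by norm_num) (by
        show ‖(s (j + K)).1.toEquiv (it f j K x)‖ ≤ _
        linarith)
    have h3 : G j = fun x => Ψ (j + K) (u j K x) := by
      funext x
      rw [hrel' j K x, hΨG]
    rw [h3]
    exact unit_comp (hΨd _) (hufam j K).differentiable h2 ((hufam j K).unit x)
  · -- approximation
    intro R ε hε
    obtain ⟨K, hK⟩ := hunif j R (ε / 2) (half_pos hε)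
    obtain ⟨a, ha⟩ := (hufam j K).approx R (ε / 2) (half_pos hε)
    refine ⟨a, fun z hz => ?_⟩
    calc ‖a.toEquiv z - G j z‖ = ‖(a.toEquiv z - u j K z) + (u j K z - G j z)‖ := by
          rw [sub_add_sub_cancel]
      _ ≤ ‖a.toEquiv z - u j K z‖ + ‖u j K z - G j z‖ := norm_add_le _ _
      _ ≤ ε / 2 + ε / 2 := add_le_add (ha z hz) (hK K le_rfl z hz)
      _ = ε := by ring
  · -- surjectivity
    intro y
    obtain ⟨m, hm⟩ := hexK y
    have h1 := (hgood m).1
    obtain ⟨w, hw, hw2⟩ := (hΨnear m).surj (hΨd m) (by norm_num) (by norm_num) (w := y) (by linarith)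
    exact ⟨m, (s m).1.toEquiv.symm w, hw2⟩

end Pool.Agent.H13.CxMan
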