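import Pool.Agent.H13.CxMan.Family

/-!
An explicit map in `Fam` on `ℂ × ℂ` whose range is not dense (a Fatou-Bieberbach map).
-/

namespace Pool.Agent.H13.CxMan

open Metric Filter Topology
open scoped ContDiff

abbrev C2 := ℂ × ℂ

/-- the polynomial automorphism `kap t` -/
noncomputable def kap (t : ℂ) : Aut C2 where
  toEquiv :=
    { toFun := fun p => (p.1 - t * p.2 ^ 2, p.2 - t * (p.1 - t * p.2 ^ 2) ^ 2)
      invFun := fun q => (q.1 + t * (q.2 + t * q.1 ^ 2) ^ 2, q.2 + t * q.1 ^ 2)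
      left_inv := by
        intro p
        ext <;> simp
      right_inv := by
        intro q
        ext <;> simp }
  smooth := by
    show ContDiff ℂ ω fun p : C2 => (p.1 - t * p.2 ^ 2, p.2 - t * (p.1 - t * p.2 ^ 2) ^ 2)
    fun_prop
  smooth_symm := by
    show ContDiff ℂ ω fun q : C2 => (q.1 + t * (q.2 + t * q.1 ^ 2) ^ 2, q.2 + t * q.1 ^ 2)
    fun_prop

lemma kap_apply (t : ℂ) (p : C2) :
    (kap t).toEquiv p = (p.1 - t * p.2 ^ 2, p.2 - t * (p.1 - t * p.2 ^ 2) ^ 2) := rfl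

lemma kap_symm_apply (t : ℂ) (q : C2) :
    (kap t).toEquiv.symm q = (q.1 + t * (q.2 + t * q.1 ^ 2) ^ 2, q.2 + t * q.1 ^ 2) := rfl

lemma kap_near {t : ℂ} (ht : ‖t‖ ≤ 1) {ρ : ℝ} (p : C2) (hp : ‖p‖ ≤ ρ) :
    ‖(kap t).toEquiv p - p‖ ≤ ‖t‖ * (ρ + ρ ^ 2) ^ 2 := by
  have h1 : ‖p.1‖ ≤ ρ := (norm_fst_le p).trans hp
  have h2 : ‖p.2‖ ≤ ρ := (norm_snd_le p).trans hp
  have hρ : 0 ≤ ρ := (norm_nonneg _).trans hp
  rw [kap_apply, Prod.norm_def]
  have ht0 := norm_nonneg t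
  have h3 : ‖t * p.2 ^ 2‖ ≤ ‖t‖ * ρ ^ 2 := by
    rw [norm_mul, norm_pow]; gcongr
  have h4 : ‖p.1 - t * p.2 ^ 2‖ ≤ ρ + ρ ^ 2 := by
    calc ‖p.1 - t * p.2 ^ 2‖ ≤ ‖p.1‖ + ‖t * p.2 ^ 2‖ := norm_sub_le _ _
      _ ≤ ρ + ‖t‖ * ρ ^ 2 := add_le_add h1 h3
      _ ≤ ρ + 1 * ρ ^ 2 := by gcongr
      _ = _ := by ring
  apply max_le
  · simp only [Prod.fst_sub]
    have : p.1 - t * p.2 ^ 2 - p.1 = -(t * p.2 ^ 2) := by ring
    rw [this, norm_neg]
    refine h3.trans ?_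
    apply mul_le_mul_of_nonneg_left _ ht0
    nlinarith [pow_nonneg hρ 3, pow_nonneg hρ 4]
  · simp only [Prod.snd_sub]
    have : p.2 - t * (p.1 - t * p.2 ^ 2) ^ 2 - p.2 = -(t * (p.1 - t * p.2 ^ 2) ^ 2) := by ring
    rw [this, norm_neg, norm_mul, norm_pow]
    gcongr

noncomputable def tt (n : ℕ) : ℂ := (1 / 2 : ℂ) ^ n

lemma norm_tt (n : ℕ) : ‖tt n‖ = (1 / 2 : ℝ) ^ n := by
  unfold tt; rw [norm_pow]; norm_num

lemma norm_tt_le (n : ℕ) : ‖tt n‖ ≤ 1 := by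
  rw [norm_tt]; exact pow_le_one₀ (by norm_num) (by norm_num)

/-- `W n k = kap (t_n) ∘ ... ∘ kap (t_{n+k-1})` -/
noncomputable def W : ℕ → ℕ → Aut C2
  | _, 0 => Aut.id
  | n, k + 1 => (kap (tt n)).comp (W (n + 1) k)

lemma W_zero (n : ℕ) (z : C2) : (W n 0).toEquiv z = z := by simp [W]

lemma W_succ (n k : ℕ) (z : C2) :
    (W n (k + 1)).toEquiv z = (kap (tt n)).toEquiv ((W (n + 1) k).toEquiv z) := by
  simp [W]

lemma W_add (n K k : ℕ) (z : C2) :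
    (W n (K + k)).toEquiv z = (W n K).toEquiv ((W (n + K) k).toEquiv z) := by
  induction K generalizing n with
  | zero => simp [W_zero]
  | succ K ih =>
    rw [show K + 1 + k = (K + k) + 1 by ring, W_succ, W_succ, ih]
    rw [show n + 1 + K = n + (K + 1) by ring]

lemma W_succ' (n k : ℕ) (z : C2) :
    (W n (k + 1)).toEquiv z = (W n k).toEquiv ((kap (tt (n + k))).toEquiv z) := by
  rw [W_add, W_succ, W_zero]

/-- the constant -/
noncomputable def cc (ρ : ℝ) : ℝ := ((ρ + 1) + (ρ + 1) ^ 2) ^ 2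

lemma W_close {ρ : ℝ} (hρ : 0 ≤ ρ) {N : ℕ} (hN : 2 * cc ρ * (1 / 2) ^ N ≤ 1 / 2) (k : ℕ) :
    ∀ n ≥ N, ∀ z : C2, ‖z‖ ≤ ρ →
      ‖(W n k).toEquiv z - z‖ ≤ 2 * cc ρ * (1 / 2) ^ n * (1 - (1 / 2) ^ k) := by
  have hc : 0 ≤ cc ρ := by unfold cc; positivity
  induction k with
  | zero => intro n _ z _; rw [W_zero]; simp
  | succ k ih =>
    intro n hn z hz
    have h1 := ih (n + 1) (by omega) z hz
    set v := (W (n + 1) k).toEquiv z with hv
    have hle : (1 / 2 : ℝ) ^ n ≤ (1 / 2) ^ N := pow_le_pow_of_le_one (by norm_num) (by norm_num) hn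
    have hk0 : (0 : ℝ) ≤ (1 / 2) ^ k := by positivity
    have hk1 : (1 / 2 : ℝ) ^ k ≤ 1 := pow_le_one₀ (by norm_num) (by norm_num)
    have hn0 : (0 : ℝ) ≤ (1 / 2) ^ n := by positivity
    have h2 : ‖v - z‖ ≤ cc ρ * (1 / 2) ^ n * (1 - (1 / 2) ^ k) := by
      refine h1.trans (le_of_eq ?_)
      rw [pow_succ]; ring
    have h3 : ‖v - z‖ ≤ 1 := by
      have h5 : cc ρ * (1 / 2) ^ n ≤ cc ρ * (1 / 2) ^ N := mul_le_mul_of_nonneg_left hle hc
      have h6 : cc ρ * (1 / 2) ^ n * (1 - (1 / 2) ^ k) ≤ cc ρ * (1 / 2) ^ n * 1 := by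
        apply mul_le_mul_of_nonneg_left _ (by positivity)
        linarith
      linarith
    have h4 : ‖v‖ ≤ ρ + 1 := by
      calc ‖v‖ = ‖(v - z) + z‖ := by simp
        _ ≤ ‖v - z‖ + ‖z‖ := norm_add_le _ _
        _ ≤ ρ + 1 := by linarith
    have h5 := kap_near (norm_tt_le n) v h4
    rw [norm_tt] at h5
    rw [W_succ]
    calc ‖(kap (tt n)).toEquiv v - z‖ = ‖((kap (tt n)).toEquiv v - v) + (v - z)‖ := by
          rw [sub_add_sub_cancel]
      _ ≤ ‖(kap (tt n)).toEquiv v - v‖ + ‖v - z‖ := norm_add_le _ _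
      _ ≤ (1 / 2) ^ n * cc ρ + cc ρ * (1 / 2) ^ n * (1 - (1 / 2) ^ k) := add_le_add h5 h2
      _ = _ := by rw [pow_succ (1 / 2 : ℝ) k]; ring

lemma exists_N (ρ : ℝ) : ∃ N : ℕ, 2 * cc ρ * (1 / 2) ^ N ≤ 1 / 2 := by
  have hc : 0 ≤ cc ρ := by unfold cc; positivity
  obtain ⟨N, hN⟩ := exists_pow_lt_of_lt_one (show (0 : ℝ) < 1 / (4 * (cc ρ + 1)) by positivity)
    (by norm_num : (1 / 2 : ℝ) < 1)
  refine ⟨N, ?_⟩
  have h1 : 2 * cc ρ * (1 / 2) ^ N ≤ 2 * (cc ρ + 1) * (1 / (4 * (cc ρ + 1))) := by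
    gcongr
    linarith
  refine h1.trans (le_of_eq ?_)
  field_simp
  norm_num

lemma W_near {ρ : ℝ} (hρ : 0 ≤ ρ) {N : ℕ} (hN : 2 * cc ρ * (1 / 2) ^ N ≤ 1 / 2) (k n : ℕ) (hn : N ≤ n) :
    Near (W n k).toEquiv (1 / 2) ρ := by
  intro z hz
  have h1 := W_close hρ hN k n hn z hz
  have hc : 0 ≤ cc ρ := by unfold cc; positivity
  have hle : (1 / 2 : ℝ) ^ n ≤ (1 / 2) ^ N := pow_le_pow_of_le_one (by norm_num) (by norm_num) hn
  have hk0 : (0 : ℝ) ≤ (1 / 2) ^ k := by positivity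
  have h5 : 2 * cc ρ * (1 / 2) ^ n ≤ 2 * cc ρ * (1 / 2) ^ N := mul_le_mul_of_nonneg_left hle (by positivity)
  have h6 : 2 * cc ρ * (1 / 2) ^ n * (1 - (1 / 2) ^ k) ≤ 2 * cc ρ * (1 / 2) ^ n * 1 := by
    apply mul_le_mul_of_nonneg_left _ (by positivity)
    linarith
  linarith

/-- geometric estimate for consecutive terms -/
lemma W_step {ρ : ℝ} (hρ : 0 ≤ ρ) {N : ℕ} (hN : 2 * cc (ρ + 2) * (1 / 2) ^ N ≤ 1 / 2) (n : ℕ)
    (hn : N ≤ n) (z : C2) (hz : ‖z‖ ≤ ρ) (k : ℕ) :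
    dist ((W n k).toEquiv z) ((W n (k + 1)).toEquiv z) ≤ (3 * cc (ρ + 2)) / 2 / 2 ^ k := by
  have hc : 0 ≤ cc (ρ + 2) := by unfold cc; positivity
  have h1 := kap_near (norm_tt_le (n + k)) (ρ := ρ + 2 + 1) z (by linarith)
  rw [norm_tt] at h1
  have h1' : ‖(kap (tt (n + k))).toEquiv z - z‖ ≤ (1 / 2) ^ (n + k) * cc (ρ + 2) := h1
  set v := (kap (tt (n + k))).toEquiv z with hv
  have hle : (1 / 2 : ℝ) ^ (n + k) ≤ (1 / 2) ^ N :=
    pow_le_pow_of_le_one (by norm_num) (by norm_num) (by omega)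
  have h2 : ‖v - z‖ ≤ 1 := by
    have h5 : (1 / 2 : ℝ) ^ (n + k) * cc (ρ + 2) ≤ (1 / 2) ^ N * cc (ρ + 2) :=
      mul_le_mul_of_nonneg_right hle hc
    linarith
  have h3 : ‖v‖ ≤ ρ + 1 := by
    calc ‖v‖ = ‖(v - z) + z‖ := by simp
      _ ≤ ‖v - z‖ + ‖z‖ := norm_add_le _ _
      _ ≤ ρ + 1 := by linarith
  have hnear : Near (W n k).toEquiv (1 / 2) ((ρ + 1) + 1) := by
    have := W_near (ρ := ρ + 2) (by linarith) hN k n hn
    have e : ρ + 1 + 1 = ρ + 2 := by ring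
    rw [e]; exact this
  have hd : Differentiable ℂ (W n k).toEquiv := (W n k).smooth.differentiable (by simp)
  have h4 := hnear.dist_le hd (z := z) (w := v) (by linarith) h3
  rw [W_succ', dist_comm, dist_eq_norm]
  have h5 : ‖(W n k).toEquiv v - (W n k).toEquiv z‖ ≤ 3 / 2 * ‖v - z‖ := by
    calc ‖(W n k).toEquiv v - (W n k).toEquiv z‖ =
        ‖(((W n k).toEquiv v - v) - ((W n k).toEquiv z - z)) + (v - z)‖ := by congr 1; abel
      _ ≤ ‖((W n k).toEquiv v - v) - ((W n k).toEquiv z - z)‖ + ‖v - z‖ := norm_add_le _ _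
      _ ≤ 1 / 2 * ‖v - z‖ + ‖v - z‖ := by linarith
      _ = _ := by ring
  refine h5.trans ?_
  have h6 : (1 / 2 : ℝ) ^ (n + k) ≤ (1 / 2) ^ k :=
    pow_le_pow_of_le_one (by norm_num) (by norm_num) (by omega)
  calc 3 / 2 * ‖v - z‖ ≤ 3 / 2 * ((1 / 2) ^ (n + k) * cc (ρ + 2)) := by linarith
    _ ≤ 3 / 2 * ((1 / 2) ^ k * cc (ρ + 2)) := by gcongr
    _ = _ := by rw [one_div_pow (2 : ℝ) k]; field_simp

theorem exists_fb : ∃ f : C2 → C2, Fam f ∧ ∃ U : Set C2, IsOpen U ∧ U.Nonempty ∧ ∀ z, f z ∉ U := by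
  have hex : ∀ ρ : ℝ, ∃ N : ℕ, 2 * cc (ρ + 2) * (1 / 2) ^ N ≤ 1 / 2 := fun ρ => exists_N _
  choose NN hNN using hex
  -- limits
  have hlim0 : ∀ (n : ℕ) (z : C2), NN ‖z‖ ≤ n → ∃ y, Tendsto (fun k => (W n k).toEquiv z) atTop (𝓝 y) := by
    intro n z hn
    exact cauchySeq_tendsto_of_complete
      (cauchySeq_of_le_geometric_two (W_step (norm_nonneg z) (hNN _) n hn z le_rfl))
  have hlim : ∀ (n : ℕ) (z : C2), ∃ y, Tendsto (fun k => (W n k).toEquiv z) atTop (𝓝 y) := by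
    intro n z
    obtain ⟨y, hy⟩ := hlim0 (n + NN ‖z‖) z (Nat.le_add_left _ _)
    refine ⟨(W n (NN ‖z‖)).toEquiv y, ?_⟩
    rw [← tendsto_add_atTop_iff_nat (NN ‖z‖)]
    have : (fun k => (W n (k + NN ‖z‖)).toEquiv z) =
        fun k => (W n (NN ‖z‖)).toEquiv ((W (n + NN ‖z‖) k).toEquiv z) := by
      funext k; rw [Nat.add_comm k, W_add]
    rw [this]
    exact ((W n (NN ‖z‖)).smooth.continuous.tendsto y).comp hy
  choose P hP using hlim
  have hrel : ∀ n K z, P n z = (W n K).toEquiv (P (n + K) z) := by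
    intro n K z
    have h1 := hP n z
    rw [← tendsto_add_atTop_iff_nat K] at h1
    refine tendsto_nhds_unique h1 ?_
    have : (fun k => (W n (k + K)).toEquiv z) =
        fun k => (W n K).toEquiv ((W (n + K) k).toEquiv z) := by
      funext k; rw [Nat.add_comm k, W_add]
    rw [this]
    exact ((W n K).smooth.continuous.tendsto _).comp (hP (n + K) z)
  have hnear : ∀ (ρ : ℝ), 0 ≤ ρ → ∀ n ≥ NN ρ, Near (P n) (1 / 2) (ρ + 2) := by
    intro ρ hρ n hn z hz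
    have h1 : Tendsto (fun k => ‖(W n k).toEquiv z - z‖) atTop (𝓝 ‖P n z - z‖) :=
      ((hP n z).sub_const z).norm
    exact le_of_tendsto h1 (Eventually.of_forall fun k => W_near (by linarith) (hNN ρ) k n hn z hz)
  have hunif0 : ∀ (R : ℝ), 0 ≤ R → ∀ n ≥ NN R, ∀ δ > 0, ∃ K0, ∀ k ≥ K0, ∀ z, ‖z‖ ≤ R →
      ‖(W n k).toEquiv z - P n z‖ ≤ δ := by
    intro R hR n hn δ hδ
    have hc : 0 ≤ cc (R + 2) := by unfold cc; positivity
    obtain ⟨K0, hK0⟩ := exists_pow_lt_of_lt_one (show (0 : ℝ) < δ / (3 * cc (R + 2) + 1) by positivity)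
      (by norm_num : (1 / 2 : ℝ) < 1)
    refine ⟨K0, fun k hk z hz => ?_⟩
    have h1 := dist_le_of_le_geometric_two_of_tendsto (W_step hR (hNN R) n hn z hz) (hP n z) k
    rw [dist_eq_norm] at h1
    refine h1.trans ?_
    have h2 : (1 / 2 : ℝ) ^ k ≤ (1 / 2) ^ K0 := pow_le_pow_of_le_one (by norm_num) (by norm_num) hk
    calc 3 * cc (R + 2) / 2 ^ k = 3 * cc (R + 2) * (1 / 2) ^ k := by rw [one_div_pow]; ring
      _ ≤ (3 * cc (R + 2) + 1) * (δ / (3 * cc (R + 2) + 1)) := by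
          gcongr
          · linarith
          · linarith
      _ = δ := by field_simp
  have hunif : ∀ (n : ℕ) (R : ℝ), 0 ≤ R → ∀ ε > 0, ∃ K0, ∀ k ≥ K0, ∀ z, ‖z‖ ≤ R →
      ‖(W n k).toEquiv z - P n z‖ ≤ ε := by
    intro n R hR ε hε
    set K := NN R with hK
    have hge : n + K ≥ NN R := Nat.le_add_left _ _
    obtain ⟨δ, hδ, hcont⟩ := unif_cont (W n K).smooth.continuous (isCompact_closedBall (0 : C2) (R + 1)) hε
    obtain ⟨K0, hK0⟩ := hunif0 R hR (n + K) hge δ hδ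
    refine ⟨K0 + K, fun k hk z hz => ?_⟩
    obtain ⟨l, rfl⟩ : ∃ l, k = K + l := ⟨k - K, by omega⟩
    rw [W_add, hrel n K z]
    apply hcont
    · rw [mem_closedBall, dist_zero_right]
      have h1 := hnear R hR (n + K) hge z (by linarith)
      calc ‖P (n + K) z‖ = ‖(P (n + K) z - z) + z‖ := by simp
        _ ≤ ‖P (n + K) z - z‖ + ‖z‖ := norm_add_le _ _
        _ ≤ R + 1 := by linarith
    · exact hK0 l (by omega) z hz
  have hUC : ∀ n, UC (fun k => (W n k).toEquiv) (P n) := by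
    intro n R
    rw [Metric.tendstoUniformlyOn_iff]
    intro ε hε
    obtain ⟨K, hK⟩ := hunif n (max R 0) (le_max_right _ _) (ε / 2) (half_pos hε)
    filter_upwards [eventually_ge_atTop K] with k hk x hx
    have := hK k hk x ((by simpa using hx : ‖x‖ ≤ R).trans (le_max_left _ _))
    rw [dist_comm, dist_eq_norm]
    linarith
  have hsm : ∀ n, ContDiff ℂ ω (P n) := fun n => (hUC n).analytic fun k => (W n k).smooth
  have hd : ∀ n, Differentiable ℂ (P n) := fun n => (hsm n).differentiable (by simp)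
  have hfam : ∀ n, Fam (P n) := by
    intro n
    refine ⟨?_, ?_, ?_⟩
    · intro x y hxy
      set ρ := max ‖x‖ ‖y‖ with hρ
      have hρ0 : 0 ≤ ρ := (norm_nonneg x).trans (le_max_left _ _)
      set K := NN ρ
      rw [hrel n K x, hrel n K y] at hxy
      have h1 := (W n K).toEquiv.injective hxy
      have h2 := hnear ρ hρ0 (n + K) (Nat.le_add_left _ _)
      have h3 : Near (P (n + K)) (1 / 2) ((ρ + 1) + 1) := by
        have e : ρ + 1 + 1 = ρ + 2 := by ring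
        rw [e]; exact h2
      exact h3.inj (hd _) (by norm_num) ((le_max_left _ _).trans (by linarith))
        ((le_max_right _ _).trans (by linarith)) h1
    · intro x
      set ρ := ‖x‖ with hρ
      set K := NN ρ
      have h2 := hnear ρ (norm_nonneg x) (n + K) (Nat.le_add_left _ _)
      have h3 : Near (P (n + K)) (1 / 2) ((ρ + 1) + 1) := by
        have e : ρ + 1 + 1 = ρ + 2 := by ring
        rw [e]; exact h2
      have h4 : P n = fun z => (W n K).toEquiv (P (n + K) z) := by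
        funext z; exact hrel n K z
      rw [h4]
      exact unit_comp ((W n K).smooth.differentiable (by simp)) (hd _) ((W n K).fam.unit _)
        (h3.isUnit_fderiv (hd _) (by norm_num) (by linarith))
    · intro R ε hε
      obtain ⟨K, hK⟩ := hunif n (max R 0) (le_max_right _ _) ε hε
      exact ⟨W n K, fun z hz => hK K le_rfl z (hz.trans (le_max_left _ _))⟩
  -- the functional equation
  have hscale : ∀ (k n : ℕ) (z : C2), (W (n + 1) k).toEquiv z = (2 : ℂ) • (W n k).toEquiv ((1 / 2 : ℂ) • z) := by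
    intro k
    induction k with
    | zero => intro n z; rw [W_zero, W_zero, smul_smul]; norm_num
    | succ k ih =>
      intro n z
      rw [W_succ, W_succ, ih (n + 1) z]
      generalize (W (n + 1) k).toEquiv ((1 / 2 : ℂ) • z) = v
      rw [kap_apply, kap_apply]
      have : tt (n + 1) = tt n / 2 := by unfold tt; rw [pow_succ]; ring
      rw [this]
      ext <;> simp only [Prod.smul_fst, Prod.smul_snd, smul_eq_mul, Prod.smul_mk] <;> ring
  have hP1 : ∀ z, P 1 z = (2 : ℂ) • P 0 ((1 / 2 : ℂ) • z) := by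
    intro z
    refine tendsto_nhds_unique (hP 1 z) ?_
    have : (fun k => (W 1 k).toEquiv z) = fun k => (2 : ℂ) • (W 0 k).toEquiv ((1 / 2 : ℂ) • z) := by
      funext k; exact hscale k 0 z
    rw [this]
    exact (hP 0 _).const_smul _
  set H : C2 → C2 := fun p => ((p.1 + (p.2 + p.1 ^ 2) ^ 2) / 2, (p.2 + p.1 ^ 2) / 2) with hH
  have hHP : ∀ z, H (P 0 z) = P 0 ((1 / 2 : ℂ) • z) := by
    intro z
    have h1 : P 0 z = (kap (tt 0)).toEquiv (P 1 z) := by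
      have := hrel 0 1 z
      rw [W_succ, W_zero] at this
      exact this
    have h2 : (kap (tt 0)).toEquiv.symm (P 0 z) = (2 : ℂ) • P 0 ((1 / 2 : ℂ) • z) := by
      rw [h1, Equiv.symm_apply_apply, hP1]
    have h3 : H (P 0 z) = (1 / 2 : ℂ) • (kap (tt 0)).toEquiv.symm (P 0 z) := by
      rw [kap_symm_apply, hH]
      have : tt 0 = 1 := by simp [tt]
      rw [this]
      ext <;> simp <;> ring
    rw [h3, h2, smul_smul]
    norm_num
  refine ⟨P 0, hfam 0, {p : C2 | 4 < ‖p.1‖ ∧ 2 * ‖p.2‖ < ‖p.1‖ ^ 2}, ?_, ⟨(5, 0), ?_⟩, ?_⟩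
  · have c1 : Continuous fun p : C2 => ‖p.1‖ := by fun_prop
    have c2 : Continuous fun p : C2 => 2 * ‖p.2‖ := by fun_prop
    have c3 : Continuous fun p : C2 => ‖p.1‖ ^ 2 := by fun_prop
    exact (isOpen_lt continuous_const c1).inter (isOpen_lt c2 c3)
  · simp; norm_num
  · intro z hz
    -- forward orbit
    have horb : ∀ k : ℕ, (4 < ‖(P 0 ((1 / 2 : ℂ) ^ k • z)).1‖ ∧
        2 * ‖(P 0 ((1 / 2 : ℂ) ^ k • z)).2‖ < ‖(P 0 ((1 / 2 : ℂ) ^ k • z)).1‖ ^ 2) ∧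
        4 * 2 ^ k ≤ ‖(P 0 ((1 / 2 : ℂ) ^ k • z)).1‖ := by
      intro k
      induction k with
      | zero =>
        simp only [pow_zero, one_smul, mul_one]
        exact ⟨hz, hz.1.le⟩
      | succ k ih =>
        have e : (1 / 2 : ℂ) ^ (k + 1) • z = (1 / 2 : ℂ) • ((1 / 2 : ℂ) ^ k • z) := by
          rw [smul_smul, pow_succ']
        rw [e, ← hHP]
        generalize P 0 ((1 / 2 : ℂ) ^ k • z) = p at ih
        obtain ⟨⟨h1, h2⟩, h3⟩ := ih
        have hX : ‖(H p).1‖ = ‖p.1 + (p.2 + p.1 ^ 2) ^ 2‖ / 2 := by simp [hH]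
        have hY : ‖(H p).2‖ = ‖p.2 + p.1 ^ 2‖ / 2 := by simp [hH]
        set x := ‖p.1‖ with hx
        set y := ‖p.2‖ with hy
        have hy0 : 0 ≤ y := norm_nonneg _
        have h4 : x ^ 2 / 2 ≤ ‖p.2 + p.1 ^ 2‖ := by
          have : ‖p.1 ^ 2‖ ≤ ‖p.2 + p.1 ^ 2‖ + ‖p.2‖ := by
            calc ‖p.1 ^ 2‖ = ‖(p.2 + p.1 ^ 2) - p.2‖ := by congr 1; ring
              _ ≤ _ := norm_sub_le _ _
          rw [norm_pow] at this
          linarith
        have h5 : ‖p.2 + p.1 ^ 2‖ ≤ 3 / 2 * x ^ 2 := by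
          have : ‖p.2 + p.1 ^ 2‖ ≤ ‖p.2‖ + ‖p.1 ^ 2‖ := norm_add_le _ _
          rw [norm_pow] at this
          linarith
        have h6 : (x ^ 2 / 2) ^ 2 - x ≤ ‖p.1 + (p.2 + p.1 ^ 2) ^ 2‖ := by
          have h7 : ‖(p.2 + p.1 ^ 2) ^ 2‖ ≤ ‖p.1 + (p.2 + p.1 ^ 2) ^ 2‖ + ‖p.1‖ := by
            calc ‖(p.2 + p.1 ^ 2) ^ 2‖ = ‖(p.1 + (p.2 + p.1 ^ 2) ^ 2) - p.1‖ := by congr 1; ring
              _ ≤ _ := norm_sub_le _ _
          rw [norm_pow] at h7
          have h8 : (x ^ 2 / 2) ^ 2 ≤ ‖p.2 + p.1 ^ 2‖ ^ 2 := by gcongr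
          linarith
        have h9 : 2 * x ≤ ‖(H p).1‖ := by
          rw [hX]
          have : 4 * x ≤ (x ^ 2 / 2) ^ 2 - x := by
            have hx3 : 64 ≤ x ^ 3 := by
              calc (64 : ℝ) = 4 ^ 3 := by norm_num
                _ ≤ x ^ 3 := by gcongr
            nlinarith
          linarith
        refine ⟨⟨by linarith, ?_⟩, ?_⟩
        · rw [hY]
          have : (2 * x) ^ 2 ≤ ‖(H p).1‖ ^ 2 := by gcongr
          nlinarith
        · rw [pow_succ]; linarith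
    obtain ⟨M, hM⟩ := (isCompact_closedBall (0 : C2) ‖z‖).exists_bound_of_continuousOn
      (hsm 0).continuous.continuousOn
    obtain ⟨k, hk⟩ := pow_unbounded_of_one_lt M (by norm_num : (1 : ℝ) < 2)
    have h1 := (horb k).2
    have h2 : ‖(P 0 ((1 / 2 : ℂ) ^ k • z)).1‖ ≤ M := by
      refine (norm_fst_le _).trans (hM _ ?_)
      rw [mem_closedBall, dist_zero_right, norm_smul, norm_pow]
      have : ‖(1 / 2 : ℂ)‖ ^ k ≤ 1 := pow_le_one₀ (norm_nonneg _) (by norm_num)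
      calc ‖(1 / 2 : ℂ)‖ ^ k * ‖z‖ ≤ 1 * ‖z‖ := mul_le_mul_of_nonneg_right this (norm_nonneg _)
        _ = ‖z‖ := one_mul _
    have h3 : (0 : ℝ) < 2 ^ k := by positivity
    linarith

end Pool.Agent.H13.CxMan
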