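import Pool.Agent.H13.CxMan.Holo

/-!
Entire maps close to the identity on a ball.
-/

namespace Pool.Agent.H13.CxMan

open Metric Filter Topology

variable {E : Type*} [NormedAddCommGroup E] [NormedSpace ℂ E]

/-- `h` is `ε`-close to the identity on the closed ball of radius `R`. -/
def Near (h : E → E) (ε R : ℝ) : Prop := ∀ z, ‖z‖ ≤ R → ‖h z - z‖ ≤ ε

lemma fderiv_sub_id {h : E → E} (hh : Differentiable ℂ h) (x : E) :
    fderiv ℂ (fun z => h z - z) x = fderiv ℂ h x - 1 :=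
  ((hh x).hasFDerivAt.sub (hasFDerivAt_id x)).fderiv

lemma Near.fderiv_sub_le {h : E → E} {ε R : ℝ} (hh : Differentiable ℂ h) (hn : Near h ε (R + 1))
    {z : E} (hz : ‖z‖ ≤ R) : ‖fderiv ℂ h z - 1‖ ≤ ε := by
  have h1 : fderiv ℂ (fun z => h z - z) z = fderiv ℂ h z - 1 := fderiv_sub_id hh z
  rw [← h1]
  have h2 : ‖fderiv ℂ (fun z => h z - z) z‖ ≤ ε / 1 := by
    apply cauchy_est (hh.sub differentiable_id) one_pos
    intro y hy
    apply hn
    rw [mem_closedBall, dist_eq_norm] at hy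
    calc ‖y‖ = ‖(y - z) + z‖ := by simp
      _ ≤ ‖y - z‖ + ‖z‖ := norm_add_le _ _
      _ ≤ _ := by linarith
  simpa using h2

lemma Near.isUnit_fderiv [CompleteSpace E] {h : E → E} {ε R : ℝ} (hh : Differentiable ℂ h)
    (hn : Near h ε (R + 1)) (hε : ε < 1) {z : E} (hz : ‖z‖ ≤ R) : IsUnit (fderiv ℂ h z) := by
  have h1 := hn.fderiv_sub_le hh hz
  have h2 : ‖(1 : E →L[ℂ] E) - fderiv ℂ h z‖ < 1 := by
    rw [norm_sub_rev]; linarith
  have h3 := isUnit_one_sub_of_norm_lt_one h2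
  simpa using h3

lemma Near.dist_le {h : E → E} {ε R : ℝ} (hh : Differentiable ℂ h) (hn : Near h ε (R + 1))
    {z w : E} (hz : ‖z‖ ≤ R) (hw : ‖w‖ ≤ R) : ‖(h w - w) - (h z - z)‖ ≤ ε * ‖w - z‖ := by
  have h1 : ∀ x : E, fderiv ℂ (fun z => h z - z) x = fderiv ℂ h x - 1 := fderiv_sub_id hh
  apply Convex.norm_image_sub_le_of_norm_fderiv_le (𝕜 := ℂ) (f := fun z => h z - z)
    (s := closedBall (0 : E) R)
  · intro x _
    exact (hh.sub differentiable_id) x
  · intro x hx
    rw [h1]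
    exact hn.fderiv_sub_le hh (by simpa using hx)
  · exact convex_closedBall 0 R
  · simpa using hz
  · simpa using hw

lemma Near.inj {h : E → E} {ε R : ℝ} (hh : Differentiable ℂ h) (hn : Near h ε (R + 1)) (hε : ε < 1)
    {z w : E} (hz : ‖z‖ ≤ R) (hw : ‖w‖ ≤ R) (hzw : h z = h w) : z = w := by
  have h1 := hn.dist_le hh hz hw
  rw [hzw] at h1
  have h2 : ‖(h w - w) - (h w - z)‖ = ‖w - z‖ := by
    rw [sub_sub_sub_cancel_left, norm_sub_rev]
  rw [h2] at h1
  have h3 : ‖w - z‖ = 0 := by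
    have := norm_nonneg (w - z)
    nlinarith
  rw [norm_eq_zero, sub_eq_zero] at h3
  exact h3.symm

lemma Near.surj [CompleteSpace E] {h : E → E} {ε R : ℝ} (hh : Differentiable ℂ h)
    (hn : Near h ε (R + 1)) (hε0 : 0 ≤ ε) (hε : ε < 1) {w : E} (hw : ‖w‖ + ε ≤ R) :
    ∃ z, ‖z‖ ≤ R ∧ h z = w := by
  have hR : 0 ≤ R := by have := norm_nonneg w; linarith
  let T : E → E := fun z => w - (h z - z)
  have hmaps : Set.MapsTo T (closedBall 0 R) (closedBall 0 R) := by
    intro z hz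
    rw [mem_closedBall, dist_zero_right] at hz ⊢
    calc ‖w - (h z - z)‖ ≤ ‖w‖ + ‖h z - z‖ := norm_sub_le _ _
      _ ≤ ‖w‖ + ε := by
        have := hn z (by linarith)
        linarith
      _ ≤ R := hw
  have hcontr : ContractingWith ⟨ε, hε0⟩ (hmaps.restrict T _ _) := by
    constructor
    · exact_mod_cast hε
    · apply LipschitzWith.of_dist_le_mul
      rintro ⟨x, hx⟩ ⟨y, hy⟩
      rw [Subtype.dist_eq, Subtype.dist_eq]
      simp only [Set.MapsTo.val_restrict_apply]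
      rw [dist_eq_norm, dist_eq_norm]
      show ‖(w - (h x - x)) - (w - (h y - y))‖ ≤ ε * ‖x - y‖
      rw [sub_sub_sub_cancel_left]
      have := hn.dist_le hh (z := x) (w := y) (by simpa using hx) (by simpa using hy)
      rwa [norm_sub_rev x y]
  obtain ⟨y, hy, hfix, _⟩ := ContractingWith.exists_fixedPoint' (isClosed_closedBall.isComplete)
    hmaps hcontr (mem_closedBall_self hR) (edist_ne_top _ _)
  refine ⟨y, by simpa using hy, ?_⟩
  have : w - (h y - y) = y := hfix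
  have h2 : h y = w := by
    have h3 : w - (h y - y) - y = 0 := by rw [this]; simp
    have h4 : w - h y = 0 := by rw [← h3]; abel
    exact (sub_eq_zero.mp h4).symm
  exact h2

end Pool.Agent.H13.CxMan
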