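import Pool.Agent.H13.CxMan.Taylor
import Pool.Agent.H13.CxMan.NearId

/-!
The family of injective entire maps which are limits of automorphisms.
-/

namespace Pool.Agent.H13.CxMan

open Metric Filter Topology
open scoped ContDiff

variable (E : Type*) [NormedAddCommGroup E] [NormedSpace ℂ E]

/-- holomorphic automorphisms -/
structure Aut where
  toEquiv : E ≃ E
  smooth : ContDiff ℂ ω toEquiv
  smooth_symm : ContDiff ℂ ω toEquiv.symm

variable {E}

/-- injective, everywhere invertible derivative, and a limit of automorphisms -/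
structure Fam (f : E → E) : Prop where
  inj : Function.Injective f
  unit : ∀ z, IsUnit (fderiv ℂ f z)
  approx : ∀ R ε : ℝ, 0 < ε → ∃ a : Aut E, ∀ z, ‖z‖ ≤ R → ‖a.toEquiv z - f z‖ ≤ ε

def Aut.id : Aut E := ⟨Equiv.refl E, contDiff_id, contDiff_id⟩

def Aut.symm (a : Aut E) : Aut E := ⟨a.toEquiv.symm, a.smooth_symm, a.smooth⟩

def Aut.comp (a b : Aut E) : Aut E :=
  ⟨b.toEquiv.trans a.toEquiv, a.smooth.comp b.smooth, b.smooth_symm.comp a.smooth_symm⟩

@[simp] lemma Aut.comp_apply (a b : Aut E) (x : E) : (a.comp b).toEquiv x = a.toEquiv (b.toEquiv x) := rfl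
@[simp] lemma Aut.symm_apply (a : Aut E) (x : E) : a.symm.toEquiv x = a.toEquiv.symm x := rfl
@[simp] lemma Aut.id_apply (x : E) : (Aut.id : Aut E).toEquiv x = x := rfl

lemma unit_comp {f g : E → E} {x : E} (hg : Differentiable ℂ g) (hf : Differentiable ℂ f)
    (h1 : IsUnit (fderiv ℂ g (f x))) (h2 : IsUnit (fderiv ℂ f x)) :
    IsUnit (fderiv ℂ (fun z => g (f z)) x) := by
  have : fderiv ℂ (fun z => g (f z)) x = fderiv ℂ g (f x) * fderiv ℂ f x :=
    ((hg (f x)).hasFDerivAt.comp x (hf x).hasFDerivAt).fderiv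
  rw [this]
  exact h1.mul h2

lemma Aut.fam (a : Aut E) : Fam a.toEquiv where
  inj := a.toEquiv.injective
  unit z := by
    have hd : Differentiable ℂ a.toEquiv := a.smooth.differentiable (by simp)
    have hd' : Differentiable ℂ a.toEquiv.symm := a.smooth_symm.differentiable (by simp)
    have h1 : fderiv ℂ a.toEquiv.symm (a.toEquiv z) * fderiv ℂ a.toEquiv z = 1 := by
      have h := ((hd' (a.toEquiv z)).hasFDerivAt.comp z (hd z).hasFDerivAt).fderiv
      have e : (a.toEquiv.symm ∘ a.toEquiv) = _root_.id := by funext x; simp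
      rw [e, fderiv_id] at h
      exact h.symm
    have h2 : fderiv ℂ a.toEquiv z * fderiv ℂ a.toEquiv.symm (a.toEquiv z) = 1 := by
      have h0 : HasFDerivAt a.toEquiv (fderiv ℂ a.toEquiv z) (a.toEquiv.symm (a.toEquiv z)) := by
        rw [Equiv.symm_apply_apply]; exact (hd z).hasFDerivAt
      have h := (h0.comp (a.toEquiv z) (hd' (a.toEquiv z)).hasFDerivAt).fderiv
      have e : (a.toEquiv ∘ a.toEquiv.symm) = _root_.id := by funext x; simp
      rw [e, fderiv_id] at h
      exact h.symm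
    exact ⟨⟨_, _, h2, h1⟩, rfl⟩
  approx R ε hε := ⟨a, fun z _ => by simpa using hε.le⟩

variable [ProperSpace E] [CompleteSpace E]

lemma Fam.contDiff {f : E → E} (hf : Fam f) : ContDiff ℂ ω f := by
  have h : ∀ m : ℕ, ∃ a : Aut E, ∀ z, ‖z‖ ≤ (m : ℝ) → ‖a.toEquiv z - f z‖ ≤ 1 / ((m : ℝ) + 1) :=
    fun m => hf.approx m _ (by positivity)
  choose a ha using h
  apply UC.analytic (g := fun m => (a m).toEquiv) _ fun m => (a m).smooth
  intro R
  rw [Metric.tendstoUniformlyOn_iff]
  intro ε hε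
  obtain ⟨N, hN⟩ := exists_nat_one_div_lt hε
  obtain ⟨N', hN'⟩ := exists_nat_ge R
  filter_upwards [eventually_ge_atTop (max N N')] with m hm x hx
  rw [mem_closedBall, dist_zero_right] at hx
  have h1 : (N : ℝ) ≤ m := by exact_mod_cast (le_max_left _ _).trans hm
  have h2 : (N' : ℝ) ≤ m := by exact_mod_cast (le_max_right _ _).trans hm
  rw [dist_comm, dist_eq_norm]
  calc ‖(a m).toEquiv x - f x‖ ≤ 1 / ((m : ℝ) + 1) := ha m x (by linarith)
    _ ≤ 1 / ((N : ℝ) + 1) := by gcongr
    _ < ε := hN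

lemma Fam.differentiable {f : E → E} (hf : Fam f) : Differentiable ℂ f :=
  hf.contDiff.differentiable (by simp)

lemma Fam.continuous {f : E → E} (hf : Fam f) : Continuous f := hf.contDiff.continuous

/-- uniform continuity near compact balls -/
lemma unif_cont {g : E → E} (hg : Continuous g) {K : Set E} (hK : IsCompact K) {ε : ℝ} (hε : 0 < ε) :
    ∃ δ > 0, ∀ x ∈ K, ∀ y, ‖y - x‖ ≤ δ → ‖g y - g x‖ ≤ ε := by
  have h := hK.uniformContinuousAt_of_continuousAt g (fun a _ => hg.continuousAt)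
    (Metric.dist_mem_uniformity hε)
  rw [Metric.mem_uniformity_dist] at h
  obtain ⟨δ, hδ, h⟩ := h
  refine ⟨δ / 2, by positivity, fun x hx y hy => ?_⟩
  have h1 := h (a := x) (b := y) (by rw [dist_comm, dist_eq_norm]; linarith) hx
  have h2 : dist (g x) (g y) < ε := h1
  rw [dist_comm, dist_eq_norm] at h2
  exact h2.le

lemma Fam.comp {f g : E → E} (hg : Fam g) (hf : Fam f) : Fam (fun x => g (f x)) where
  inj := hg.inj.comp hf.inj
  unit z := unit_comp hg.differentiable hf.differentiable (hg.unit _) (hf.unit _)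
  approx R ε hε := by
    obtain ⟨M, hM⟩ := (isCompact_closedBall (0 : E) R).exists_bound_of_continuousOn hf.continuous.continuousOn
    obtain ⟨δ, hδ, h⟩ := unif_cont hg.continuous (isCompact_closedBall (0 : E) M) (half_pos hε)
    obtain ⟨a, ha⟩ := hf.approx R (min δ 1) (lt_min hδ one_pos)
    obtain ⟨b, hb⟩ := hg.approx (M + 1) (ε / 2) (half_pos hε)
    refine ⟨b.comp a, fun z hz => ?_⟩
    have h0 : ‖f z‖ ≤ M := hM z (by simpa using hz)
    have h1 := ha z hz
    have h2 : ‖a.toEquiv z‖ ≤ M + 1 := by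
      calc ‖a.toEquiv z‖ = ‖(a.toEquiv z - f z) + f z‖ := by simp
        _ ≤ ‖a.toEquiv z - f z‖ + ‖f z‖ := norm_add_le _ _
        _ ≤ 1 + M := add_le_add (h1.trans (min_le_right _ _)) h0
        _ = M + 1 := by ring
    have h3 := hb _ h2
    have h4 := h (f z) (by simpa using h0) (a.toEquiv z) (h1.trans (min_le_left _ _))
    rw [Aut.comp_apply]
    calc ‖b.toEquiv (a.toEquiv z) - g (f z)‖ =
          ‖(b.toEquiv (a.toEquiv z) - g (a.toEquiv z)) + (g (a.toEquiv z) - g (f z))‖ := by
            rw [sub_add_sub_cancel]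
      _ ≤ _ := norm_add_le _ _
      _ ≤ ε / 2 + ε / 2 := add_le_add h3 h4
      _ = ε := by ring

lemma Fam.isOpenMap {f : E → E} (hf : Fam f) : IsOpenMap f := by
  have h : ∀ x, ∃ e : E ≃L[ℂ] E, HasStrictFDerivAt f (e : E →L[ℂ] E) x := by
    intro x
    obtain ⟨u, hu⟩ := hf.unit x
    refine ⟨ContinuousLinearEquiv.unitsEquiv ℂ E u, ?_⟩
    have h1 : HasStrictFDerivAt f (fderiv ℂ f x) x :=
      (hf.contDiff.contDiffAt).hasStrictFDerivAt (by simp)
    rw [← hu] at h1
    exact h1
  choose e he using h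
  exact isOpenMap_of_hasStrictFDerivAt_equiv he

lemma Fam.isOpenEmbedding {f : E → E} (hf : Fam f) : Topology.IsOpenEmbedding f :=
  .of_continuous_injective_isOpenMap hf.continuous hf.inj hf.isOpenMap

/-- If automorphisms approximate `f` then their inverses approximate the inverse of `f`. -/
lemma Fam.inv_approx {f : E → E} (hf : Fam f) (R δ : ℝ) (hδ : 0 < δ) :
    ∃ a : Aut E, ∀ x, ‖x‖ ≤ R → ‖a.toEquiv.symm (f x) - x‖ ≤ δ := by
  -- lower bound for the distance to the image of the spheres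
  have hc : ∃ c > 0, ∀ x y : E, ‖x‖ ≤ R → ‖y - x‖ = δ → c ≤ ‖f y - f x‖ := by
    set S : Set (E × E) := {p | ‖p.1‖ ≤ R ∧ ‖p.2 - p.1‖ = δ} with hS
    have hScl : IsClosed S := by
      have c1 : Continuous fun p : E × E => ‖p.1‖ := by fun_prop
      have c2 : Continuous fun p : E × E => ‖p.2 - p.1‖ := by fun_prop
      exact (isClosed_le c1 continuous_const).inter (isClosed_eq c2 continuous_const)
    have hSc : IsCompact S := by
      apply IsCompact.of_isClosed_subset ((isCompact_closedBall (0 : E) R).prod (isCompact_closedBall (0 : E) (R + δ))) hScl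
      rintro ⟨x, y⟩ ⟨hx, hy⟩
      refine ⟨by simpa using hx, ?_⟩
      simp only at hx hy
      rw [mem_closedBall, dist_zero_right]
      calc ‖y‖ = ‖x + (y - x)‖ := by simp
        _ ≤ ‖x‖ + ‖y - x‖ := norm_add_le _ _
        _ ≤ R + δ := by linarith
    rcases S.eq_empty_or_nonempty with hemp | hne
    · refine ⟨1, one_pos, fun x y hx hy => ?_⟩
      exfalso
      have : (x, y) ∈ S := ⟨hx, hy⟩
      rw [hemp] at this
      exact this
    · have hcont : ContinuousOn (fun p : E × E => ‖f p.2 - f p.1‖) S := by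
        have := hf.continuous
        fun_prop
      obtain ⟨p, hp, hmin⟩ := hSc.exists_isMinOn hne hcont
      refine ⟨‖f p.2 - f p.1‖, ?_, fun x y hx hy => hmin (show (x, y) ∈ S from ⟨hx, hy⟩)⟩
      rw [gt_iff_lt, norm_pos_iff, sub_ne_zero]
      intro h
      have h1 := hf.inj h
      have h2 : ‖p.2 - p.1‖ = δ := hp.2
      rw [h1, sub_self, norm_zero] at h2
      exact hδ.ne h2
  obtain ⟨c, hc0, hc⟩ := hc
  obtain ⟨a, ha⟩ := hf.approx (R + δ) (c / 3) (by positivity)
  refine ⟨a, fun x hx => ?_⟩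
  have hacont : Continuous a.toEquiv := a.smooth.continuous
  have hascont : Continuous a.toEquiv.symm := a.smooth_symm.continuous
  set U : Set E := a.toEquiv.symm ⁻¹' ball x δ with hU
  set W : Set E := a.toEquiv.symm ⁻¹' (closedBall x δ)ᶜ with hW
  have hUo : IsOpen U := isOpen_ball.preimage hascont
  have hWo : IsOpen W := isClosed_closedBall.isOpen_compl.preimage hascont
  have hdis : Disjoint U W := by
    rw [Set.disjoint_left]
    intro y hy1 hy2
    exact hy2 (ball_subset_closedBall hy1)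
  have hsub : ball (f x) (c / 2) ⊆ U ∪ W := by
    intro y hy
    rcases lt_trichotomy (dist (a.toEquiv.symm y) x) δ with h | h | h
    · exact Or.inl h
    · exfalso
      set y' := a.toEquiv.symm y with hy'
      have hy'' : a.toEquiv y' = y := by simp [hy']
      rw [dist_eq_norm] at h
      have h1 := hc x y' hx h
      have h2 : ‖y'‖ ≤ R + δ := by
        calc ‖y'‖ = ‖x + (y' - x)‖ := by simp
          _ ≤ ‖x‖ + ‖y' - x‖ := norm_add_le _ _
          _ ≤ R + δ := by linarith
      have h3 := ha y' h2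
      rw [hy''] at h3
      rw [mem_ball, dist_eq_norm] at hy
      have h4 : ‖f y' - f x‖ ≤ ‖y - f y'‖ + ‖y - f x‖ := by
        calc ‖f y' - f x‖ = ‖-(y - f y') + (y - f x)‖ := by congr 1; abel
          _ ≤ ‖-(y - f y')‖ + ‖y - f x‖ := norm_add_le _ _
          _ = _ := by rw [norm_neg]
      linarith
    · right
      intro h5
      rw [mem_closedBall] at h5
      exact absurd h (not_lt.mpr h5)
  have hne : (ball (f x) (c / 2) ∩ U).Nonempty := by
    refine ⟨a.toEquiv x, ?_, ?_⟩
    · rw [mem_ball, dist_eq_norm]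
      have := ha x (by linarith)
      linarith
    · rw [hU]; simp [hδ]
  have hpre : IsPreconnected (ball (f x) (c / 2)) := (convex_ball _ _).isPreconnected
  have hfin := hpre.subset_left_of_subset_union hUo hWo hdis hsub hne
  have : f x ∈ U := hfin (mem_ball_self (by positivity))
  have h6 : dist (a.toEquiv.symm (f x)) x < δ := this
  rw [dist_eq_norm] at h6
  exact h6.le

/-- the step used in the inductive construction -/
lemma Fam.step {f : E → E} (hf : Fam f) (g : Aut E) (R ε : ℝ) (hε : 0 < ε) :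
    ∃ g' : Aut E, ∀ x, ‖g.toEquiv x‖ ≤ R → ‖g'.toEquiv (f x) - g.toEquiv x‖ ≤ ε := by
  have hgs : Continuous g.toEquiv.symm := g.smooth_symm.continuous
  set K : Set E := g.toEquiv.symm '' closedBall 0 R with hK
  have hKc : IsCompact K := (isCompact_closedBall 0 R).image hgs
  obtain ⟨δ, hδ, hd⟩ := unif_cont g.smooth.continuous hKc hε
  obtain ⟨ρ, hρ⟩ := hKc.isBounded.subset_closedBall (0 : E)
  obtain ⟨a, ha⟩ := hf.inv_approx ρ δ hδ
  refine ⟨g.comp a.symm, fun x hx => ?_⟩
  have hxK : x ∈ K := ⟨g.toEquiv x, by simpa using hx, by simp⟩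
  have h1 : ‖x‖ ≤ ρ := by simpa using hρ hxK
  exact hd x hxK _ (ha x h1)

end Pool.Agent.H13.CxMan
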