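import Mathlib

/-!
Several complex variables: locally uniform limits of entire analytic maps are analytic.
-/

namespace Pool.Agent.H13.CxMan

open Metric Filter Topology
open scoped ContDiff

variable {E F : Type*} [NormedAddCommGroup E] [NormedSpace ℂ E]
  [NormedAddCommGroup F] [NormedSpace ℂ F]

/-- Cauchy estimate for the derivative of an entire map. -/
lemma cauchy_est {g : E → F} (hg : Differentiable ℂ g) {x : E} {r C : ℝ} (hr : 0 < r)
    (hC : ∀ y ∈ closedBall x r, ‖g y‖ ≤ C) : ‖fderiv ℂ g x‖ ≤ C / r := by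
  have hC0 : 0 ≤ C := (norm_nonneg _).trans (hC x (mem_closedBall_self hr.le))
  apply ContinuousLinearMap.opNorm_le_of_unit_norm (by positivity)
  intro v hv
  have hl : ∀ t : ℂ, HasDerivAt (fun t : ℂ => x + t • v) v t := by
    intro t
    simpa using ((hasDerivAt_id t).smul_const v).const_add x
  have hφ : ∀ t : ℂ, HasDerivAt (fun t : ℂ => g (x + t • v)) (fderiv ℂ g (x + t • v) v) t :=
    fun t => (hg (x + t • v)).hasFDerivAt.comp_hasDerivAt t (hl t)
  have hd : deriv (fun t : ℂ => g (x + t • v)) 0 = fderiv ℂ g x v := by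
    rw [(hφ 0).deriv]; simp
  rw [← hd]
  apply Complex.norm_deriv_le_of_forall_mem_sphere_norm_le hr
  · apply Differentiable.diffContOnCl
    exact fun t => (hφ t).differentiableAt
  · intro t ht
    apply hC
    rw [mem_closedBall, dist_eq_norm]
    rw [mem_sphere_zero_iff_norm] at ht
    simp [norm_smul, ht, hv]

/-- uniform convergence on all balls -/
def UC (g : ℕ → E → F) (f : E → F) : Prop := ∀ R : ℝ, TendstoUniformlyOn g f atTop (closedBall 0 R)

lemma UC.pointwise {g : ℕ → E → F} {f : E → F} (h : UC g f) (x : E) :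
    Tendsto (fun m => g m x) atTop (𝓝 (f x)) :=
  (h ‖x‖).tendsto_at (by simp)

lemma UC.locally {g : ℕ → E → F} {f : E → F} (h : UC g f) :
    TendstoLocallyUniformlyOn g f atTop Set.univ := by
  intro u hu x _
  refine ⟨closedBall 0 (‖x‖ + 1), ?_, h _ u hu⟩
  rw [nhdsWithin_univ]
  apply mem_of_superset (ball_mem_nhds x one_pos)
  intro y hy
  rw [mem_ball, dist_eq_norm] at hy
  rw [mem_closedBall, dist_zero_right]
  calc ‖y‖ = ‖(y - x) + x‖ := by simp
    _ ≤ ‖y - x‖ + ‖x‖ := norm_add_le _ _
    _ ≤ _ := by linarith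

/-- Uniform limits on balls of entire maps are entire and the derivatives converge. -/
lemma UC.fderiv [CompleteSpace F] {g : ℕ → E → F} {f : E → F} (h : UC g f)
    (hg : ∀ m, Differentiable ℂ (g m)) :
    Differentiable ℂ f ∧ UC (fun m => _root_.fderiv ℂ (g m)) (_root_.fderiv ℂ f) := by
  -- derivatives are uniformly Cauchy
  have hc : ∀ R : ℝ, UniformCauchySeqOn (fun m => _root_.fderiv ℂ (g m)) atTop (closedBall 0 R) := by
    intro R
    have h1 := (h (R + 1)).uniformCauchySeqOn
    rw [Metric.uniformCauchySeqOn_iff] at h1 ⊢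
    intro ε hε
    obtain ⟨N, hN⟩ := h1 (ε / 2) (by positivity)
    refine ⟨N, fun m hm n hn x hx => ?_⟩
    rw [dist_eq_norm, ← fderiv_sub (hg m x) (hg n x)]
    have h2 : ‖_root_.fderiv ℂ (g m - g n) x‖ ≤ (ε / 2) / 1 := by
      apply cauchy_est ((hg m).sub (hg n)) one_pos
      intro y hy
      have hy2 : y ∈ closedBall (0 : E) (R + 1) := by
        rw [mem_closedBall, dist_zero_right]
        rw [mem_closedBall, dist_eq_norm] at hy
        rw [mem_closedBall, dist_zero_right] at hx
        calc ‖y‖ = ‖(y - x) + x‖ := by simp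
          _ ≤ ‖y - x‖ + ‖x‖ := norm_add_le _ _
          _ ≤ _ := by linarith
      have := hN m hm n hn y hy2
      rw [dist_eq_norm] at this
      exact this.le
    linarith
  have hlim : ∀ x : E, ∃ L : E →L[ℂ] F, Tendsto (fun m => _root_.fderiv ℂ (g m) x) atTop (𝓝 L) := by
    intro x
    apply cauchySeq_tendsto_of_complete
    exact (hc ‖x‖).cauchySeq (by simp)
  choose g' hg' using hlim
  have hUC : UC (fun m => _root_.fderiv ℂ (g m)) g' := by
    intro R
    exact (hc R).tendstoUniformlyOn_of_tendsto fun x _ => hg' x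
  have hd : ∀ x, HasFDerivAt f (g' x) x := by
    intro x
    exact hasFDerivAt_of_tendstoLocallyUniformlyOn isOpen_univ hUC.locally
      (fun n y _ => (hg n y).hasFDerivAt) (fun y _ => h.pointwise y) (Set.mem_univ x)
  refine ⟨fun x => (hd x).differentiableAt, ?_⟩
  have : _root_.fderiv ℂ f = g' := by
    funext x; exact (hd x).fderiv
  rw [this]
  exact hUC

lemma UC.iterated [CompleteSpace F] {g : ℕ → E → F} {f : E → F} (h : UC g f)
    (hg : ∀ m, ContDiff ℂ ∞ (g m)) (n : ℕ) :
    UC (fun m => iteratedFDeriv ℂ n (g m)) (iteratedFDeriv ℂ n f) ∧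
      Differentiable ℂ (iteratedFDeriv ℂ n f) := by
  induction n with
  | zero =>
    have h0 : UC (fun m => iteratedFDeriv ℂ 0 (g m)) (iteratedFDeriv ℂ 0 f) := by
      intro R
      have := h R
      rw [Metric.tendstoUniformlyOn_iff] at this ⊢
      intro ε hε
      filter_upwards [this ε hε] with m hm x hx
      have := hm x hx
      rw [dist_eq_norm] at this ⊢
      have e : iteratedFDeriv ℂ 0 f x - iteratedFDeriv ℂ 0 (g m) x =
        iteratedFDeriv ℂ 0 (fun x => f x - g m x) x := by
        ext v
        simp [iteratedFDeriv_zero_apply]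
      rw [e, norm_iteratedFDeriv_zero]
      exact this
    refine ⟨h0, (h0.fderiv fun m => ?_).1⟩
    exact (hg m).differentiable_iteratedFDeriv (by exact_mod_cast WithTop.coe_lt_top 0)
  | succ n ih =>
    have hgn : ∀ k m, Differentiable ℂ (iteratedFDeriv ℂ k (g m)) := fun k m =>
      (hg m).differentiable_iteratedFDeriv (by exact_mod_cast ENat.natCast_lt_top k)
    have h1 := (ih.1.fderiv (hgn n)).2
    have h0 : UC (fun m => iteratedFDeriv ℂ (n + 1) (g m)) (iteratedFDeriv ℂ (n + 1) f) := by
      intro R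
      have := h1 R
      rw [Metric.tendstoUniformlyOn_iff] at this ⊢
      intro ε hε
      filter_upwards [this ε hε] with m hm x hx
      have := hm x hx
      rw [iteratedFDeriv_succ_eq_comp_left, iteratedFDeriv_succ_eq_comp_left]
      simp only [Function.comp_apply]
      rw [LinearIsometryEquiv.dist_map]
      exact this
    exact ⟨h0, (h0.fderiv (hgn (n + 1))).1⟩

end Pool.Agent.H13.CxMan
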