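import Pool.Agent.H13.CxMan.Chain

/-!
The manifold attached to a chain without upper bound.
-/

namespace Pool.Agent.H13.CxMan

open Metric Filter Topology
open scoped ContDiff Manifold

variable {E : Type} [NormedAddCommGroup E] [NormedSpace ℂ E] [ProperSpace E] [CompleteSpace E]

/-- the underlying type: the union of the ranges -/
def Mt (c : Set (Par E)) : Type := {z : Zt E // ∃ p ∈ c, z ∈ Set.range p.1}

/-- parametrisations -/
def phi (c : Set (Par E)) (p : c) (x : E) : Mt c := ⟨p.1.1 x, p.1, p.2, x, rfl⟩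

lemma phi_inj (c : Set (Par E)) (p : c) : Function.Injective (phi c p) := by
  intro x y h
  exact p.1.2 (congrArg Subtype.val h)

instance (c : Set (Par E)) : TopologicalSpace (Mt c) :=
  ⨆ p : c, TopologicalSpace.coinduced (phi c p) inferInstance

lemma isOpen_Mt {c : Set (Par E)} {U : Set (Mt c)} :
    IsOpen U ↔ ∀ p : c, IsOpen (phi c p ⁻¹' U) := by
  rw [isOpen_iSup_iff]
  rfl

/-- trichotomy with transition maps -/
lemma trans_cases {c : Set (Par E)} (hc : IsChain Rs c) (p q : c) :
    (∃ f : E → E, Fam f ∧ ∀ x, phi c p x = phi c q (f x)) ∨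
      (∃ f : E → E, Fam f ∧ ∀ x, phi c q x = phi c p (f x)) := by
  rcases eq_or_ne p q with h | h
  · subst h
    exact Or.inl ⟨id, fam_id, fun _ => rfl⟩
  · rcases hc p.2 q.2 (fun h' => h (Subtype.ext h')) with ⟨f, hf, _, h2⟩ | ⟨f, hf, _, h2⟩
    · exact Or.inl ⟨f, hf, fun x => Subtype.ext (h2 x)⟩
    · exact Or.inr ⟨f, hf, fun x => Subtype.ext (h2 x)⟩

lemma phi_isOpenEmbedding {c : Set (Par E)} (hc : IsChain Rs c) (p : c) :
    IsOpenEmbedding (phi c p) := by
  apply IsOpenEmbedding.of_continuous_injective_isOpenMap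
  · rw [continuous_def]
    intro U hU
    exact isOpen_Mt.mp hU p
  · exact phi_inj c p
  · intro V hV
    rw [isOpen_Mt]
    intro q
    rcases trans_cases hc p q with ⟨f, hf, h2⟩ | ⟨f, hf, h2⟩
    · have : phi c q ⁻¹' (phi c p '' V) = f '' V := by
        ext y
        constructor
        · rintro ⟨x, hx, hxy⟩
          exact ⟨x, hx, phi_inj c q (by rw [← h2, hxy])⟩
        · rintro ⟨x, hx, rfl⟩
          exact ⟨x, hx, h2 x⟩
      rw [this]
      exact hf.isOpenMap V hV
    · have : phi c q ⁻¹' (phi c p '' V) = f ⁻¹' V := by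
        ext y
        constructor
        · rintro ⟨x, hx, hxy⟩
          rw [h2] at hxy
          have := phi_inj c p hxy
          show f y ∈ V
          rw [← this]; exact hx
        · intro hy
          exact ⟨f y, hy, (h2 y).symm⟩
      rw [this]
      exact hV.preimage hf.continuous

variable [Nonempty E]

/-- charts -/
noncomputable def cht {c : Set (Par E)} (hc : IsChain Rs c) (p : c) : OpenPartialHomeomorph (Mt c) E :=
  ((phi_isOpenEmbedding hc p).toOpenPartialHomeomorph (phi c p)).symm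

lemma exists_chart (c : Set (Par E)) (z : Mt c) : ∃ p : c, ∃ x, phi c p x = z := by
  obtain ⟨z, p, hp, x, hx⟩ := z
  exact ⟨⟨p, hp⟩, x, Subtype.ext hx⟩

@[reducible] noncomputable def cs {c : Set (Par E)} (hc : IsChain Rs c) : ChartedSpace E (Mt c) where
  atlas := Set.range (cht hc)
  chartAt z := cht hc (exists_chart c z).choose
  mem_chart_source z := by
    obtain ⟨x, hx⟩ := (exists_chart c z).choose_spec
    simp only [cht, OpenPartialHomeomorph.symm_source, IsOpenEmbedding.toOpenPartialHomeomorph_target]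
    exact ⟨x, hx⟩
  chart_mem_atlas z := ⟨_, rfl⟩

lemma fam_inverse_contDiffOn {f : E → E} (hf : Fam f) {g : E → E} (hg : ∀ x, g (f x) = x) :
    ContDiffOn ℂ ω g (Set.range f) := by
  have he := hf.isOpenEmbedding
  set e := he.toOpenPartialHomeomorph f with hedef
  have h1 : ∀ y ∈ Set.range f, ContDiffAt ℂ ω e.symm y := by
    rintro y ⟨x, rfl⟩
    obtain ⟨u, hu⟩ := hf.unit x
    have hx : e.symm (f x) = x := by
      have := e.left_inv (x := x) (by simp [hedef])
      simpa [hedef] using this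
    apply OpenPartialHomeomorph.contDiffAt_symm e (f₀' := ContinuousLinearEquiv.unitsEquiv ℂ E u)
    · simp [hedef]
    · rw [hx]
      have h2 : HasFDerivAt f (fderiv ℂ f x) x := (hf.differentiable x).hasFDerivAt
      rw [← hu] at h2
      exact h2
    · rw [hx]
      exact hf.contDiff.contDiffAt
  intro y hy
  apply ContDiffAt.contDiffWithinAt
  refine (h1 y hy).congr_of_eventuallyEq ?_
  have hopen : IsOpen (Set.range f) := he.isOpen_range
  filter_upwards [hopen.mem_nhds hy] with z hz
  obtain ⟨x, rfl⟩ := hz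
  rw [hg]
  have := e.left_inv (x := x) (by simp [hedef])
  simpa [hedef] using this.symm

lemma isManifold {c : Set (Par E)} (hc : IsChain Rs c) :
    @IsManifold ℂ _ E _ _ E _ (modelWithCornersSelf ℂ E) (⊤ : WithTop ℕ∞) (Mt c) _ (cs hc) := by
  let _ := cs hc
  apply isManifold_of_contDiffOn
  rintro e e' ⟨p, rfl⟩ ⟨q, rfl⟩
  simp only [modelWithCornersSelf_coe, modelWithCornersSelf_coe_symm, Set.range_id, Set.inter_univ,
    Function.id_comp, Function.comp_id, Set.preimage_id_eq, id_eq]
  have hp := phi_isOpenEmbedding hc p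
  have hq := phi_isOpenEmbedding hc q
  have hsrc : ((cht hc p).symm.trans (cht hc q)).source = {x | phi c p x ∈ Set.range (phi c q)} := by
    ext x
    simp [cht]
  have hval : ∀ x y, phi c p x = phi c q y → ((cht hc p).symm.trans (cht hc q)) x = y := by
    intro x y hxy
    have h1 : ((cht hc p).symm.trans (cht hc q)) x = (cht hc q) (phi c p x) := by
      simp [cht]
    rw [h1, hxy]
    have := ((hq.toOpenPartialHomeomorph (phi c q)).left_inv (x := y) (by simp))
    simpa [cht] using this
  rw [hsrc]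
  rcases trans_cases hc p q with ⟨f, hf, h2⟩ | ⟨f, hf, h2⟩
  · have : ∀ x, ((cht hc p).symm.trans (cht hc q)) x = f x := fun x => hval x (f x) (h2 x)
    exact (hf.contDiff.contDiffOn).congr fun x _ => this x
  · have h3 : {x | phi c p x ∈ Set.range (phi c q)} = Set.range f := by
      ext x
      constructor
      · rintro ⟨y, hy⟩
        rw [h2] at hy
        exact ⟨y, phi_inj c p hy⟩
      · rintro ⟨y, rfl⟩
        exact ⟨y, h2 y⟩
    rw [h3]
    apply fam_inverse_contDiffOn hf
    intro y
    exact hval (f y) y (h2 y).symm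

lemma common {c : Set (Par E)} (hc : IsChain Rs c) (x y : Mt c) :
    ∃ p : c, ∃ a b, phi c p a = x ∧ phi c p b = y := by
  obtain ⟨p, a, ha⟩ := exists_chart c x
  obtain ⟨q, b, hb⟩ := exists_chart c y
  rcases trans_cases hc p q with ⟨f, hf, h2⟩ | ⟨f, hf, h2⟩
  · exact ⟨q, f a, b, by rw [← h2, ha], hb⟩
  · exact ⟨p, a, f b, ha, by rw [← h2, hb]⟩

theorem main {f0 : E → E} (hf0 : Fam f0) (hd : ¬ DenseRange f0) :
    ∃ (M : Type) (_ : TopologicalSpace M) (_ : ChartedSpace E M),
      IsManifold (modelWithCornersSelf ℂ E) (⊤ : WithTop ℕ∞) M ∧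
      T2Space M ∧ ConnectedSpace M ∧ ¬ TopologicalSpace.SeparableSpace M := by
  obtain ⟨c, hc, hub⟩ := exists_chain hf0 hd
  have hmem := fun d hdc => exists_ub_mem hf0 hd hc hub d hdc
  have hne : c.Nonempty := by
    by_contra hemp
    rw [Set.not_nonempty_iff_eq_empty] at hemp
    apply hub
    have hinj : Function.Injective (fun x : E => ({(x, 0)} : Zt E)) := by
      intro x y h
      simpa using h
    exact ⟨⟨_, hinj⟩, by rw [hemp]; simp⟩
  obtain ⟨p0, hp0⟩ := hne
  refine ⟨Mt c, inferInstance, cs hc, isManifold hc, ?_, ?_, ?_⟩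
  · -- Hausdorff
    constructor
    intro x y hxy
    obtain ⟨p, a, b, rfl, rfl⟩ := common hc x y
    have hab : a ≠ b := fun h => hxy (by rw [h])
    obtain ⟨u, v, hu, hv, ha, hb, huv⟩ := t2_separation hab
    have hp := phi_isOpenEmbedding hc p
    refine ⟨phi c p '' u, phi c p '' v, hp.isOpenMap u hu, hp.isOpenMap v hv, ⟨a, ha, rfl⟩,
      ⟨b, hb, rfl⟩, ?_⟩
    exact Set.disjoint_image_of_injective hp.injective huv
  · -- connected
    have hN : Nonempty (Mt c) := ⟨phi c ⟨p0, hp0⟩ (Classical.arbitrary E)⟩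
    have hpre : PreconnectedSpace (Mt c) := by
      constructor
      apply isPreconnected_of_forall_pair
      intro x _ y _
      obtain ⟨p, a, b, rfl, rfl⟩ := common hc x y
      refine ⟨Set.range (phi c p), Set.subset_univ _, ⟨a, rfl⟩, ⟨b, rfl⟩, ?_⟩
      rw [← Set.image_univ]
      exact (isPreconnected_univ).image _ (phi_isOpenEmbedding hc p).continuous.continuousOn
    exact { toPreconnectedSpace := hpre, toNonempty := hN }
  · -- not separable
    intro hsep
    have hN : Nonempty (Mt c) := ⟨phi c ⟨p0, hp0⟩ (Classical.arbitrary E)⟩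
    have hdense := TopologicalSpace.denseRange_denseSeq (Mt c)
    set s := TopologicalSpace.denseSeq (Mt c) with hs
    choose d hd1 using fun n => exists_chart c (s n)
    obtain ⟨q, hq, hdq⟩ := hmem (fun n => (d n).1) (fun n => (d n).2)
    obtain ⟨q', hq', hqq⟩ := hmem (fun _ => q) (fun _ => hq)
    obtain ⟨f, hf, hfd, hf2⟩ := hqq 0
    have hsub : Set.range s ⊆ Set.range (phi c ⟨q, hq⟩) := by
      rintro _ ⟨n, rfl⟩
      obtain ⟨x, hx⟩ := hd1 n
      obtain ⟨g, hg, _, hg2⟩ := hdq n
      refine ⟨g x, ?_⟩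
      rw [← hx]
      exact Subtype.ext (hg2 x).symm
    have hfd' : ¬ Dense (Set.range f) := hfd
    rw [dense_iff_inter_open] at hfd'
    push Not at hfd'
    obtain ⟨V, hV, hVne, hVe⟩ := hfd'
    have hopen : IsOpen (phi c ⟨q', hq'⟩ '' V) := (phi_isOpenEmbedding hc ⟨q', hq'⟩).isOpenMap V hV
    obtain ⟨z, hz1, hz2⟩ := hdense.inter_open_nonempty _ hopen (hVne.image _)
    obtain ⟨v, hv, rfl⟩ := hz1
    obtain ⟨x, hx⟩ := hsub hz2
    have h1 : phi c ⟨q, hq⟩ x = phi c ⟨q', hq'⟩ (f x) := Subtype.ext (hf2 x)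
    rw [h1] at hx
    have h2 := phi_inj c _ hx
    have : v ∈ V ∩ Set.range f := ⟨hv, x, h2⟩
    rw [hVe] at this
    exact this

end Pool.Agent.H13.CxMan
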