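import Pool.Agent.H13.CxMan.Holo

/-!
Entire maps all of whose iterated derivatives are differentiable are analytic.
-/

namespace Pool.Agent.H13.CxMan

open Metric Filter Topology
open scoped ContDiff

variable {E F : Type*} [NormedAddCommGroup E] [NormedSpace ℂ E]
  [NormedAddCommGroup F] [NormedSpace ℂ F]

lemma iterated_bound {f : E → F} (hf : ∀ n, Differentiable ℂ (iteratedFDeriv ℂ n f)) {x : E} {M : ℝ}
    (hM : ∀ y ∈ closedBall x 1, ‖f y‖ ≤ M) (k : ℕ) (hk : 0 < k) :
    ∀ j ≤ k, ∀ y ∈ closedBall x (1 - j / k), ‖iteratedFDeriv ℂ j f y‖ ≤ M * (k : ℝ) ^ j := by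
  have hk' : (0 : ℝ) < k := by exact_mod_cast hk
  intro j
  induction j with
  | zero =>
    intro _ y hy
    rw [norm_iteratedFDeriv_zero]
    simpa using hM y (by simpa using hy)
  | succ j ih =>
    intro hj y hy
    rw [← norm_fderiv_iteratedFDeriv]
    have h1 : ‖fderiv ℂ (iteratedFDeriv ℂ j f) y‖ ≤ (M * (k : ℝ) ^ j) / (1 / k) := by
      apply cauchy_est (hf j) (by positivity)
      intro z hz
      apply ih (by omega)
      rw [mem_closedBall] at hy hz ⊢
      have : dist z x ≤ dist z y + dist y x := dist_triangle _ _ _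
      have e : (1 : ℝ) - (j : ℝ) / k = 1 / k + (1 - ((j + 1 : ℕ) : ℝ) / k) := by
        push_cast; field_simp; ring
      rw [e]
      linarith
    refine h1.trans (le_of_eq ?_)
    rw [pow_succ]
    field_simp

lemma iterated_bound' {f : E → F} (hf : ∀ n, Differentiable ℂ (iteratedFDeriv ℂ n f)) {x : E} {M : ℝ}
    (hM : ∀ y ∈ closedBall x 1, ‖f y‖ ≤ M) (k : ℕ) :
    ‖iteratedFDeriv ℂ k f x‖ ≤ M * (Real.exp k * k.factorial) := by
  have hM0 : 0 ≤ M := (norm_nonneg _).trans (hM x (mem_closedBall_self zero_le_one))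
  rcases Nat.eq_zero_or_pos k with rfl | hk
  · simpa using hM x (mem_closedBall_self zero_le_one)
  · have h1 := iterated_bound hf hM k hk k le_rfl x (by
      have hk' : (k : ℝ) ≠ 0 := by exact_mod_cast hk.ne'
      rw [div_self hk']; simp)
    refine h1.trans (mul_le_mul_of_nonneg_left ?_ hM0)
    have h2 := Real.pow_div_factorial_le_exp (k : ℝ) (by positivity) k
    rwa [div_le_iff₀ (by positivity)] at h2

lemma iteratedDeriv_line {f : E → F} (hf : ContDiff ℂ ∞ f) (x y : E) (n : ℕ) :
    iteratedDeriv n (fun t : ℂ => f (x + t • y)) 0 = iteratedFDeriv ℂ n f x (fun _ => y) := by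
  have hcomp : (fun t : ℂ => f (x + t • y)) =
      (fun z => f (x + z)) ∘ (ContinuousLinearMap.toSpanSingleton ℂ y) := by
    funext t; simp
  rw [iteratedDeriv_eq_iteratedFDeriv, hcomp]
  have hc : ContDiff ℂ ∞ (fun z => f (x + z)) := hf.comp (contDiff_const.add contDiff_id)
  rw [ContinuousLinearMap.iteratedFDeriv_comp_right (ContinuousLinearMap.toSpanSingleton ℂ y) hc 0
    (i := n) (by exact_mod_cast le_top)]
  rw [iteratedFDeriv_comp_add_left]
  simp

theorem analytic_of_iterated [CompleteSpace F] {f : E → F}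
    (hf : ∀ n, Differentiable ℂ (iteratedFDeriv ℂ n f))
    (hb : ∀ x, ∃ M, ∀ y ∈ closedBall x 1, ‖f y‖ ≤ M) : ContDiff ℂ ω f := by
  have hsm : ContDiff ℂ ∞ f := contDiff_of_differentiable_iteratedFDeriv fun m _ => hf m
  have hd : Differentiable ℂ f := hsm.differentiable (by simp)
  rw [contDiff_omega_iff_analyticOnNhd]
  intro x _
  obtain ⟨M, hM⟩ := hb x
  have hM0 : 0 ≤ M := (norm_nonneg _).trans (hM x (mem_closedBall_self zero_le_one))
  let p : FormalMultilinearSeries ℂ E F := fun n => ((n.factorial : ℂ)⁻¹) • iteratedFDeriv ℂ n f x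
  have hp : ∀ n, ‖p n‖ ≤ M * Real.exp n := by
    intro n
    have h1 : ‖p n‖ = ((n.factorial : ℝ)⁻¹) * ‖iteratedFDeriv ℂ n f x‖ := by
      show ‖((n.factorial : ℂ)⁻¹) • iteratedFDeriv ℂ n f x‖ = _
      rw [norm_smul, norm_inv, RCLike.norm_natCast]
    rw [h1]
    have h2 := iterated_bound' hf hM n
    have h3 : (0 : ℝ) < n.factorial := by exact_mod_cast n.factorial_pos
    rw [inv_mul_le_iff₀ h3]
    refine h2.trans (le_of_eq ?_)
    ring
  have hrad : ((1 / 4 : NNReal) : ENNReal) ≤ p.radius := by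
    apply FormalMultilinearSeries.le_radius_of_bound p M
    intro n
    have h1 : ‖p n‖ * ((1 / 4 : NNReal) : ℝ) ^ n ≤ (M * Real.exp n) * ((1 / 4 : NNReal) : ℝ) ^ n := by
      apply mul_le_mul_of_nonneg_right (hp n) (by positivity)
    refine h1.trans ?_
    have h2 : Real.exp n * ((1 / 4 : NNReal) : ℝ) ^ n ≤ 1 := by
      have : Real.exp n = Real.exp 1 ^ n := by rw [← Real.exp_nat_mul]; simp
      rw [this, ← mul_pow]
      apply pow_le_one₀ (by positivity)
      have := Real.exp_one_lt_d9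
      push_cast
      linarith
    calc (M * Real.exp n) * ((1 / 4 : NNReal) : ℝ) ^ n = M * (Real.exp n * ((1 / 4 : NNReal) : ℝ) ^ n) := by ring
      _ ≤ M * 1 := mul_le_mul_of_nonneg_left h2 hM0
      _ = M := mul_one M
  refine ⟨p, ((1 / 4 : NNReal) : ENNReal), ⟨hrad, ?_, ?_⟩⟩
  · have : (0 : NNReal) < 1 / 4 := by positivity
    exact_mod_cast this
  · intro y _
    have hφ : Differentiable ℂ (fun t : ℂ => f (x + t • y)) := by
      intro t
      exact (hd _).comp t ((differentiableAt_id.smul_const y).const_add x)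
    have h1 := Complex.hasSum_taylorSeries_of_entire hφ 0 1
    simp only [sub_zero, one_pow, one_smul, iteratedDeriv_line hsm] at h1
    exact h1

/-- A limit, uniformly on balls, of entire analytic maps is analytic. -/
theorem UC.analytic [ProperSpace E] [CompleteSpace F] {g : ℕ → E → F} {f : E → F} (h : UC g f)
    (hg : ∀ m, ContDiff ℂ ω (g m)) : ContDiff ℂ ω f := by
  have hg' : ∀ m, ContDiff ℂ ∞ (g m) := fun m => (hg m).of_le (by exact_mod_cast le_top)
  apply analytic_of_iterated (fun n => (h.iterated hg' n).2)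
  intro x
  have hd : Differentiable ℂ f := (h.fderiv fun m => (hg' m).differentiable (by simp)).1
  obtain ⟨M, hM⟩ := (isCompact_closedBall x 1).exists_bound_of_continuousOn hd.continuous.continuousOn
  exact ⟨M, hM⟩

end Pool.Agent.H13.CxMan
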