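import Pool.Agent.H13.CxMan.Mfd
import Pool.Agent.H13.CxMan.FB

/-!
Transfer to the Euclidean space and the final statement.
-/

namespace Pool.Agent.H13.CxMan

open Metric Filter Topology
open scoped ContDiff Manifold

variable {E E' : Type} [NormedAddCommGroup E] [NormedSpace ℂ E] [ProperSpace E] [CompleteSpace E]
  [NormedAddCommGroup E'] [NormedSpace ℂ E'] [ProperSpace E'] [CompleteSpace E']

omit [ProperSpace E] [CompleteSpace E] [ProperSpace E'] [CompleteSpace E'] in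
lemma conj_fderiv (L : E ≃L[ℂ] E') {f : E → E} (hf : Differentiable ℂ f) (z : E') :
    fderiv ℂ (fun x => L (f (L.symm x))) z =
      (L : E →L[ℂ] E').comp ((fderiv ℂ f (L.symm z)).comp (L.symm : E' →L[ℂ] E)) := by
  have h1 : HasFDerivAt (fun x => L (f (L.symm x)))
      ((L : E →L[ℂ] E').comp ((fderiv ℂ f (L.symm z)).comp (L.symm : E' →L[ℂ] E))) z :=
    (L.hasFDerivAt).comp z (((hf (L.symm z)).hasFDerivAt).comp z L.symm.hasFDerivAt)
  exact h1.fderiv

omit [ProperSpace E] [CompleteSpace E] [ProperSpace E'] [CompleteSpace E'] in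
lemma conj_isUnit (L : E ≃L[ℂ] E') {A : E →L[ℂ] E} (hA : IsUnit A) :
    IsUnit ((L : E →L[ℂ] E').comp (A.comp (L.symm : E' →L[ℂ] E))) := by
  obtain ⟨u, rfl⟩ := hA
  refine ⟨⟨(L : E →L[ℂ] E').comp ((u : E →L[ℂ] E).comp (L.symm : E' →L[ℂ] E)),
    (L : E →L[ℂ] E').comp (((u⁻¹ : (E →L[ℂ] E)ˣ) : E →L[ℂ] E).comp (L.symm : E' →L[ℂ] E)), ?_, ?_⟩, rfl⟩
  · ext x
    have h : ∀ y, (u : E →L[ℂ] E) (((u⁻¹ : (E →L[ℂ] E)ˣ) : E →L[ℂ] E) y) = y := by
      intro y
      have := congrArg (fun B : E →L[ℂ] E => B y) u.mul_inv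
      exact this
    simp [h]
  · ext x
    have h : ∀ y, ((u⁻¹ : (E →L[ℂ] E)ˣ) : E →L[ℂ] E) ((u : E →L[ℂ] E) y) = y := by
      intro y
      have := congrArg (fun B : E →L[ℂ] E => B y) u.inv_mul
      exact this
    simp [h]

noncomputable def conjAut (L : E ≃L[ℂ] E') (a : Aut E) : Aut E' where
  toEquiv := (L.symm.toLinearEquiv.toEquiv.trans a.toEquiv).trans L.toLinearEquiv.toEquiv
  smooth := (L.contDiff.comp a.smooth).comp L.symm.contDiff
  smooth_symm := (L.contDiff.comp a.smooth_symm).comp L.symm.contDiff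

lemma Fam.conj (L : E ≃L[ℂ] E') {f : E → E} (hf : Fam f) : Fam (fun x => L (f (L.symm x))) where
  inj := L.injective.comp (hf.inj.comp L.symm.injective)
  unit z := by
    rw [conj_fderiv L hf.differentiable]
    exact conj_isUnit L (hf.unit _)
  approx R ε hε := by
    obtain ⟨a, ha⟩ := hf.approx (‖(L.symm : E' →L[ℂ] E)‖ * R) (ε / (‖(L : E →L[ℂ] E')‖ + 1)) (by positivity)
    refine ⟨conjAut L a, fun z hz => ?_⟩
    have h1 : ‖L.symm z‖ ≤ ‖(L.symm : E' →L[ℂ] E)‖ * R := by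
      calc ‖L.symm z‖ ≤ ‖(L.symm : E' →L[ℂ] E)‖ * ‖z‖ := (L.symm : E' →L[ℂ] E).le_opNorm z
        _ ≤ _ := by gcongr
    have h2 := ha _ h1
    have e : (conjAut L a).toEquiv z - L (f (L.symm z)) = L (a.toEquiv (L.symm z) - f (L.symm z)) := by
      rw [map_sub]; rfl
    rw [e]
    calc ‖L (a.toEquiv (L.symm z) - f (L.symm z))‖
        ≤ ‖(L : E →L[ℂ] E')‖ * ‖a.toEquiv (L.symm z) - f (L.symm z)‖ := (L : E →L[ℂ] E').le_opNorm _
      _ ≤ (‖(L : E →L[ℂ] E')‖ + 1) * (ε / (‖(L : E →L[ℂ] E')‖ + 1)) := by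
          gcongr
          linarith
      _ = ε := by field_simp

lemma not_dense_conj (L : E ≃L[ℂ] E') {f : E → E} (hf : ¬ DenseRange f) :
    ¬ DenseRange (fun x => L (f (L.symm x))) := by
  intro h
  apply hf
  have h1 : DenseRange (fun x : E' => L.symm (L (f (L.symm x)))) :=
    L.symm.surjective.denseRange.comp h L.symm.continuous
  refine h1.mono ?_
  rintro _ ⟨x, rfl⟩
  exact ⟨L.symm x, by simp⟩

theorem exists_manifold :
    ∃ (n : ℕ) (M : Type) (_ : TopologicalSpace M)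
      (_ : ChartedSpace (EuclideanSpace ℂ (Fin n)) M),
      IsManifold (modelWithCornersSelf ℂ (EuclideanSpace ℂ (Fin n))) (⊤ : WithTop ℕ∞) M ∧
      T2Space M ∧ ConnectedSpace M ∧ ¬ TopologicalSpace.SeparableSpace M := by
  obtain ⟨f, hf, U, hU, hUne, hfU⟩ := exists_fb
  have hnd : ¬ DenseRange f := by
    intro h
    obtain ⟨z, hz1, hz2⟩ := h.inter_open_nonempty U hU hUne
    obtain ⟨x, rfl⟩ := hz2
    exact hfU x hz1
  have hdim : Module.finrank ℂ C2 = Module.finrank ℂ (EuclideanSpace ℂ (Fin 2)) := by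
    simp
  have hL : Nonempty (C2 ≃L[ℂ] EuclideanSpace ℂ (Fin 2)) :=
    FiniteDimensional.nonempty_continuousLinearEquiv_of_finrank_eq hdim
  obtain ⟨L⟩ := hL
  exact ⟨2, main (hf.conj L) (not_dense_conj L hnd)⟩

end Pool.Agent.H13.CxMan
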